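import Mathlib

/-!
# Anti-sieve (destructive Maynard-Tao weights): definitions

`ι` indexes a finite set of primes `p i`, `σ` indexes the sites; site `s` of the integer `N` is the
integer `N + a s`.  An assignment is a function `f : ι → Option σ` (`f i = some s` : the prime `p i` is
attached to the site `s`).
-/

open Finset BigOperators

namespace H474.AS

variable {ι σ : Type} [Fintype ι] [DecidableEq ι] [Fintype σ] [DecidableEq σ]

/-- local factor of the basis function: `1` or `1_{p_i | N + a_s} - 1/p_i` -/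
noncomputable def loc (p : ι → ℕ) (a : σ → ℕ) (i : ι) (o : Option σ) (N : ℕ) : ℝ :=
  match o with
  | none => 1
  | some s => (if p i ∣ N + a s then (1 : ℝ) else 0) - 1 / (p i : ℝ)

/-- basis function attached to an assignment -/
noncomputable def hh (p : ι → ℕ) (a : σ → ℕ) (f : ι → Option σ) (N : ℕ) : ℝ :=
  ∏ i, loc p a i (f i) N

/-- local Gram matrix -/
noncomputable def gram (p : ι → ℕ) (i : ι) (o o' : Option σ) : ℝ :=
  match o, o' with
  | none, none => 1
  | some s, some s' => (if s = s' then 1 / (p i : ℝ) else 0) - 1 / (p i : ℝ) ^ 2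
  | none, some _ => 0
  | some _, none => 0

/-- product of all attached primes -/
def dd (p : ι → ℕ) (f : ι → Option σ) : ℕ := ∏ i, if (f i).isSome then p i else 1

/-- product of the primes attached to the site `s` -/
def ds (p : ι → ℕ) (f : ι → Option σ) (s : σ) : ℕ := ∏ i, if f i = some s then p i else 1

/-- the sites that carry at least one prime -/
def used (f : ι → Option σ) : Finset σ := univ.filter (fun s => ∃ i, f i = some s)

/-- product of the primes in `e` -/
def me (p : ι → ℕ) (e : Finset ι) : ℕ := ∏ i ∈ e, p i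

/-- `(-1)` to the number of attached primes -/
noncomputable def sgn (f : ι → Option σ) : ℝ := ∏ i, if (f i).isSome then (-1 : ℝ) else 1

/-- untruncated coefficient without sign -/
noncomputable def raw (p : ι → ℕ) (ψ : ℕ → ℝ) (f : ι → Option σ) : ℝ :=
  ∏ s ∈ used f, (-(ψ (ds p f s)))

/-- truncated coefficients of `Q` : level `R`, at most `M` used sites -/
noncomputable def cc (p : ι → ℕ) (ψ : ℕ → ℝ) (R : ℝ) (M : ℕ) (f : ι → Option σ) : ℝ :=
  if (dd p f : ℝ) ≤ R ∧ (used f).card ≤ M then sgn f * raw p ψ f else 0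

/-- `Q(N) = ∑_f c_f h_f(N)` -/
noncomputable def QQ (p : ι → ℕ) (a : σ → ℕ) (ψ : ℕ → ℝ) (R : ℝ) (M : ℕ) (N : ℕ) : ℝ :=
  ∑ f : ι → Option σ, cc p ψ R M f * hh p a f N

/-- `τ_f = 1 - ∑_{m coprime to d(f), d(f) m ≤ R} ψ(m)/m` (the sum is absent if no further site is allowed) -/
noncomputable def tau (p : ι → ℕ) (ψ : ℕ → ℝ) (R : ℝ) (M : ℕ) (f : ι → Option σ) : ℝ :=
  1 - (if (used f).card < M then
    ∑ e ∈ (univ : Finset (Finset ι)).filter
      (fun e => (∀ i ∈ e, f i = none) ∧ ((dd p f * me p e : ℕ) : ℝ) ≤ R),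
      ψ (me p e) / (me p e : ℝ) else 0)

/-- `S_f = ∑_{m ≤ B, m coprime to d(f)} 1/m` -/
noncomputable def SS (p : ι → ℕ) (B : ℝ) (f : ι → Option σ) : ℝ :=
  ∑ e ∈ (univ : Finset (Finset ι)).filter
      (fun e => (∀ i ∈ e, f i = none) ∧ ((me p e : ℕ) : ℝ) ≤ B), 1 / (me p e : ℝ)

/-- remove the primes attached to the site `s` -/
def strip (s : σ) (f : ι → Option σ) : ι → Option σ := fun i => if f i = some s then none else f i

/-- attach the primes of `e` to the site `s` -/
def ins (s : σ) (f : ι → Option σ) (e : Finset ι) : ι → Option σ :=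
  fun i => if i ∈ e then some s else f i

/-- coefficients of the majorant `T_s` -/
noncomputable def tt (p : ι → ℕ) (ψ : ℕ → ℝ) (R : ℝ) (M : ℕ) (B : ℝ) (s : σ) (g : ι → Option σ) : ℝ :=
  if (ds p g s : ℝ) ≤ B then
    (∏ i, if g i = some s then (-1 : ℝ) else 1) * cc p ψ R M (strip s g) * tau p ψ R M (strip s g) /
      SS p B (strip s g)
  else 0

/-- the majorant `T_s(N)` -/
noncomputable def TT (p : ι → ℕ) (a : σ → ℕ) (ψ : ℕ → ℝ) (R : ℝ) (M : ℕ) (B : ℝ) (s : σ) (N : ℕ) : ℝ :=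
  ∑ g : ι → Option σ, tt p ψ R M B s g * hh p a g N

/-- the weight `w(f) = ∏_{s used} ψ(d_s)^2 / d(f)` -/
noncomputable def wt (p : ι → ℕ) (ψ : ℕ → ℝ) (f : ι → Option σ) : ℝ :=
  (∏ s ∈ used f, (ψ (ds p f s)) ^ 2) / (dd p f : ℝ)

/-- `∑_f w(f)` -/
noncomputable def Zall (p : ι → ℕ) (ψ : ℕ → ℝ) (σ : Type) [Fintype σ] [DecidableEq σ] : ℝ :=
  ∑ f : ι → Option σ, wt p ψ f

/-- the error weight `∏_{p attached} (1 + 1/p)` -/
noncomputable def ee (p : ι → ℕ) (f : ι → Option σ) : ℝ :=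
  ∏ i, if (f i).isSome then (1 + 1 / (p i : ℝ)) else 1

/-- equidistribution hypothesis: the number of `N ∈ 𝓑` with `p_i | N + a (v i)` for all `i ∈ D`
is `X / ∏_{i ∈ D} p_i` up to `E` -/
def EquiDist (p : ι → ℕ) (a : σ → ℕ) (𝓑 : Finset ℕ) (X E : ℝ) : Prop :=
  ∀ (D : Finset ι) (v : ι → σ),
    |((𝓑.filter (fun N => ∀ i ∈ D, p i ∣ N + a (v i))).card : ℝ) - X / (me p D : ℝ)| ≤ E

/-- two different sites are never divisible by the same prime -/
def Sep (p : ι → ℕ) (a : σ → ℕ) : Prop :=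
  ∀ (i : ι) (s s' : σ) (N : ℕ), p i ∣ N + a s → p i ∣ N + a s' → s = s'

end H474.AS
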