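import Pool.Agent.H474R2.AS.Defs

/-!
# Expansion of the square and equidistribution (task A of helper474, by helper506)
-/

open Finset BigOperators

namespace H474.AS

set_option linter.unusedSectionVars false

variable {ι σ : Type} [Fintype ι] [DecidableEq ι] [Fintype σ] [DecidableEq σ]

namespace TaskA

/-- coefficients of the product of two local factors -/
noncomputable def co (q : ℝ) (o o' : Option σ) (u : Option σ) : ℝ :=
  match o, o', u with
  | none, none, none => 1
  | none, none, some _ => 0
  | none, some _, none => -(1 / q)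
  | none, some s, some r => if r = s then 1 else 0
  | some _, none, none => -(1 / q)
  | some s, none, some r => if r = s then 1 else 0
  | some _, some _, none => 1 / q ^ 2
  | some s, some s', some r => (if r = s then (if s = s' then 1 else 0) else 0)
      - (if r = s then 1 / q else 0) - (if r = s' then 1 / q else 0)

/-- indicator -/
noncomputable def ind (p : ι → ℕ) (a : σ → ℕ) (i : ι) (u : Option σ) (N : ℕ) : ℝ :=
  match u with
  | none => 1
  | some s => if p i ∣ N + a s then (1 : ℝ) else 0

/-- density -/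
noncomputable def wi (p : ι → ℕ) (i : ι) (u : Option σ) : ℝ :=
  match u with
  | none => 1
  | some _ => 1 / (p i : ℝ)

/-- local error weight -/
noncomputable def el (q : ℝ) (o : Option σ) : ℝ :=
  match o with
  | none => 1
  | some _ => 1 + 1 / q

theorem loc_mul (p : ι → ℕ) (a : σ → ℕ) (hsep : Sep p a) (i : ι) (o o' : Option σ) (N : ℕ) :
    loc p a i o N * loc p a i o' N = ∑ u : Option σ, co (p i : ℝ) o o' u * ind p a i u N := by
  rw [Fintype.sum_option]
  cases o with
  | none =>
    cases o' with
    | none => simp [loc, co, ind]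
    | some s =>
      simp only [loc, co, ind, ite_mul, zero_mul, one_mul, Finset.sum_ite_eq', Finset.mem_univ,
        if_true]
      ring
  | some s =>
    cases o' with
    | none =>
      simp only [loc, co, ind, ite_mul, zero_mul, one_mul, Finset.sum_ite_eq', Finset.mem_univ,
        if_true]
      ring
    | some s' =>
      simp only [loc, co, ind, sub_mul, Finset.sum_sub_distrib, ite_mul, zero_mul, one_mul,
        Finset.sum_ite_eq', Finset.mem_univ, if_true]
      by_cases hss : s = s'
      · subst hss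
        by_cases h : p i ∣ N + a s
        · simp [h]; ring
        · simp [h]; ring
      · by_cases h : p i ∣ N + a s
        · have h' : ¬ p i ∣ N + a s' := fun h' => hss (hsep i s s' N h h')
          simp [h, h', hss]; ring
        · by_cases h' : p i ∣ N + a s'
          · simp [h, h', hss]; ring
          · simp [h, h', hss]; ring

theorem gram_eq (p : ι → ℕ) (i : ι) (o o' : Option σ) :
    gram p i o o' = ∑ u : Option σ, co (p i : ℝ) o o' u * wi p i u := by
  rw [Fintype.sum_option]
  cases o with
  | none =>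
    cases o' with
    | none => simp [gram, co, wi]
    | some s => simp [gram, co, wi]
  | some s =>
    cases o' with
    | none => simp [gram, co, wi]
    | some s' =>
      simp only [gram, co, wi, sub_mul, Finset.sum_sub_distrib, ite_mul, zero_mul, one_mul,
        Finset.sum_ite_eq', Finset.mem_univ, if_true]
      split_ifs <;> ring

theorem co_abs (q : ℝ) (hq : 0 < q) (o o' : Option σ) :
    ∑ u : Option σ, |co q o o' u| ≤ el q o * el q o' := by
  rw [Fintype.sum_option]
  have hq1 : 0 < 1 / q := by positivity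
  cases o with
  | none =>
    cases o' with
    | none => simp [co, el]
    | some s =>
      simp only [co, el, one_mul, abs_neg]
      have h1 : ∀ r : σ, |(if r = s then (1 : ℝ) else 0)| = if r = s then 1 else 0 := by
        intro r; split_ifs <;> simp
      simp only [h1, Finset.sum_ite_eq', Finset.mem_univ, if_true, abs_of_pos hq1]
      linarith
  | some s =>
    cases o' with
    | none =>
      simp only [co, el, mul_one, abs_neg]
      have h1 : ∀ r : σ, |(if r = s then (1 : ℝ) else 0)| = if r = s then 1 else 0 := by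
        intro r; split_ifs <;> simp
      simp only [h1, Finset.sum_ite_eq', Finset.mem_univ, if_true, abs_of_pos hq1]
      linarith
    | some s' =>
      simp only [co, el]
      have h1 : ∀ r : σ, |(if r = s then (if s = s' then (1 : ℝ) else 0) else 0)
          - (if r = s then 1 / q else 0) - (if r = s' then 1 / q else 0)| ≤
          (if r = s then (1 : ℝ) else 0) + (if r = s then 1 / q else 0) +
            (if r = s' then 1 / q else 0) := by
        intro r
        rw [abs_le]
        constructor <;> split_ifs <;> linarith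
      have h2 := Finset.sum_le_sum (s := (Finset.univ : Finset σ)) fun r _ => h1 r
      simp only [Finset.sum_add_distrib, Finset.sum_ite_eq', Finset.mem_univ, if_true] at h2
      have h3 : |1 / q ^ 2| = 1 / q ^ 2 := abs_of_pos (by positivity)
      rw [h3]
      have h4 : (1 + 1 / q) * (1 + 1 / q) = 1 / q ^ 2 + (1 + 1 / q + 1 / q) := by
        field_simp; ring
      rw [h4]
      linarith

theorem prod_ind [Nonempty σ] (p : ι → ℕ) (a : σ → ℕ) (o : ι → Option σ) (N : ℕ) :
    ∏ i, ind p a i (o i) N = if (∀ i ∈ (univ : Finset ι).filter (fun i => (o i).isSome),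
      p i ∣ N + a ((o i).getD (Classical.arbitrary σ))) then (1 : ℝ) else 0 := by
  by_cases h : ∀ i ∈ (univ : Finset ι).filter (fun i => (o i).isSome),
      p i ∣ N + a ((o i).getD (Classical.arbitrary σ))
  · rw [if_pos h]
    refine Finset.prod_eq_one fun i _ => ?_
    cases ho : o i with
    | none => rfl
    | some s =>
      have := h i (by simp [ho])
      rw [ho] at this
      simp only [ind]
      rw [if_pos (by simpa using this)]
  · rw [if_neg h]
    push Not at h
    obtain ⟨i, hi, hd⟩ := h
    refine Finset.prod_eq_zero (Finset.mem_univ i) ?_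
    cases ho : o i with
    | none => rw [Finset.mem_filter, ho] at hi; simp at hi
    | some s =>
      rw [ho] at hd
      simp only [ind]
      rw [if_neg (by simpa using hd)]

theorem prod_wi (p : ι → ℕ) (o : ι → Option σ) :
    ∏ i, wi p i (o i) = 1 / (me p ((univ : Finset ι).filter (fun i => (o i).isSome)) : ℝ) := by
  unfold me
  push_cast
  rw [Finset.prod_filter, one_div, ← Finset.prod_inv_distrib]
  refine Finset.prod_congr rfl fun i _ => ?_
  cases ho : o i with
  | none => simp [wi]
  | some s => simp [wi]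

theorem pair_bound [Nonempty σ] (p : ι → ℕ) (a : σ → ℕ) (𝓑 : Finset ℕ) (X E : ℝ)
    (hp : ∀ i, 2 ≤ p i) (hE0 : 0 ≤ E) (hE : EquiDist p a 𝓑 X E) (hsep : Sep p a)
    (f f' : ι → Option σ) :
    |∑ N ∈ 𝓑, hh p a f N * hh p a f' N - X * ∏ i, gram p i (f i) (f' i)| ≤
      E * (ee p f * ee p f') := by
  have h1 : ∀ N, hh p a f N * hh p a f' N = ∑ o : ι → Option σ,
      (∏ i, co (p i : ℝ) (f i) (f' i) (o i)) * ∏ i, ind p a i (o i) N := by
    intro N
    unfold hh
    rw [← Finset.prod_mul_distrib]
    simp only [loc_mul p a hsep]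
    rw [Finset.prod_univ_sum, Fintype.piFinset_univ]
    refine Finset.sum_congr rfl fun o _ => ?_
    rw [Finset.prod_mul_distrib]
  have h2 : ∏ i, gram p i (f i) (f' i) = ∑ o : ι → Option σ,
      (∏ i, co (p i : ℝ) (f i) (f' i) (o i)) * ∏ i, wi p i (o i) := by
    simp only [gram_eq]
    rw [Finset.prod_univ_sum, Fintype.piFinset_univ]
    refine Finset.sum_congr rfl fun o _ => ?_
    rw [Finset.prod_mul_distrib]
  have h3 : ∑ N ∈ 𝓑, hh p a f N * hh p a f' N - X * ∏ i, gram p i (f i) (f' i) =
      ∑ o : ι → Option σ, (∏ i, co (p i : ℝ) (f i) (f' i) (o i)) *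
        (∑ N ∈ 𝓑, ∏ i, ind p a i (o i) N - X * ∏ i, wi p i (o i)) := by
    simp only [h1]
    rw [Finset.sum_comm, h2, Finset.mul_sum, ← Finset.sum_sub_distrib]
    refine Finset.sum_congr rfl fun o _ => ?_
    rw [← Finset.mul_sum]
    ring
  have h4 : ∀ o : ι → Option σ,
      |∑ N ∈ 𝓑, ∏ i, ind p a i (o i) N - X * ∏ i, wi p i (o i)| ≤ E := by
    intro o
    have h5 := hE ((univ : Finset ι).filter (fun i => (o i).isSome))
      (fun i => (o i).getD (Classical.arbitrary σ))
    simp only [prod_ind]
    rw [prod_wi, Finset.sum_boole, mul_one_div]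
    exact h5
  have h6 : ∏ i, ∑ u : Option σ, |co (p i : ℝ) (f i) (f' i) u| ≤ ee p f * ee p f' := by
    unfold ee
    rw [← Finset.prod_mul_distrib]
    refine Finset.prod_le_prod (fun i _ => Finset.sum_nonneg fun u _ => abs_nonneg _) fun i _ => ?_
    have hpi : (0 : ℝ) < p i := by
      have := hp i
      exact_mod_cast (by omega : 0 < p i)
    refine (co_abs (p i : ℝ) hpi (f i) (f' i)).trans (le_of_eq ?_)
    cases f i <;> cases f' i <;> simp [el]
  rw [h3]
  calc |∑ o : ι → Option σ, (∏ i, co (p i : ℝ) (f i) (f' i) (o i)) *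
        (∑ N ∈ 𝓑, ∏ i, ind p a i (o i) N - X * ∏ i, wi p i (o i))|
      ≤ ∑ o : ι → Option σ, |(∏ i, co (p i : ℝ) (f i) (f' i) (o i)) *
        (∑ N ∈ 𝓑, ∏ i, ind p a i (o i) N - X * ∏ i, wi p i (o i))| :=
        Finset.abs_sum_le_sum_abs _ _
    _ ≤ ∑ o : ι → Option σ, (∏ i, |co (p i : ℝ) (f i) (f' i) (o i)|) * E := by
        refine Finset.sum_le_sum fun o _ => ?_
        rw [abs_mul, Finset.abs_prod]
        exact mul_le_mul_of_nonneg_left (h4 o) (Finset.prod_nonneg fun i _ => abs_nonneg _)
    _ = E * ∏ i, ∑ u : Option σ, |co (p i : ℝ) (f i) (f' i) u| := by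
        rw [Finset.prod_univ_sum, Fintype.piFinset_univ, ← Finset.sum_mul, mul_comm]
    _ ≤ E * (ee p f * ee p f') := mul_le_mul_of_nonneg_left h6 hE0

end TaskA

/-! ### Task A -/
theorem equi_sq [Nonempty σ] (p : ι → ℕ) (a : σ → ℕ) (𝓑 : Finset ℕ) (X E : ℝ)
    (hp : ∀ i, 2 ≤ p i) (hE0 : 0 ≤ E) (hE : EquiDist p a 𝓑 X E) (hsep : Sep p a)
    (t : (ι → Option σ) → ℝ) :
    |∑ N ∈ 𝓑, (∑ f : ι → Option σ, t f * hh p a f N) ^ 2
      - X * ∑ f : ι → Option σ, ∑ f' : ι → Option σ, t f * t f' * ∏ i, gram p i (f i) (f' i)|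
      ≤ E * (∑ f : ι → Option σ, |t f| * ee p f) ^ 2 := by
  have h1 : ∑ N ∈ 𝓑, (∑ f : ι → Option σ, t f * hh p a f N) ^ 2
      - X * ∑ f : ι → Option σ, ∑ f' : ι → Option σ, t f * t f' * ∏ i, gram p i (f i) (f' i) =
      ∑ f : ι → Option σ, ∑ f' : ι → Option σ, t f * t f' *
        (∑ N ∈ 𝓑, hh p a f N * hh p a f' N - X * ∏ i, gram p i (f i) (f' i)) := by
    have h2 : ∀ N, (∑ f : ι → Option σ, t f * hh p a f N) ^ 2 =
        ∑ f : ι → Option σ, ∑ f' : ι → Option σ, t f * t f' * (hh p a f N * hh p a f' N) := by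
      intro N
      rw [pow_two, Finset.sum_mul_sum]
      refine Finset.sum_congr rfl fun f _ => Finset.sum_congr rfl fun f' _ => ?_
      ring
    simp only [h2]
    rw [Finset.sum_comm, Finset.mul_sum, ← Finset.sum_sub_distrib]
    refine Finset.sum_congr rfl fun f _ => ?_
    rw [Finset.sum_comm, Finset.mul_sum, ← Finset.sum_sub_distrib]
    refine Finset.sum_congr rfl fun f' _ => ?_
    rw [← Finset.mul_sum]
    ring
  have hee : ∀ f : ι → Option σ, 0 ≤ ee p f := by
    intro f
    unfold ee
    refine Finset.prod_nonneg fun i _ => ?_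
    split_ifs <;> positivity
  rw [h1]
  calc |∑ f : ι → Option σ, ∑ f' : ι → Option σ, t f * t f' *
        (∑ N ∈ 𝓑, hh p a f N * hh p a f' N - X * ∏ i, gram p i (f i) (f' i))|
      ≤ ∑ f : ι → Option σ, |∑ f' : ι → Option σ, t f * t f' *
        (∑ N ∈ 𝓑, hh p a f N * hh p a f' N - X * ∏ i, gram p i (f i) (f' i))| :=
        Finset.abs_sum_le_sum_abs _ _
    _ ≤ ∑ f : ι → Option σ, ∑ f' : ι → Option σ, |t f * t f' *
        (∑ N ∈ 𝓑, hh p a f N * hh p a f' N - X * ∏ i, gram p i (f i) (f' i))| :=
        Finset.sum_le_sum fun f _ => Finset.abs_sum_le_sum_abs _ _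
    _ ≤ ∑ f : ι → Option σ, ∑ f' : ι → Option σ, E * ((|t f| * ee p f) * (|t f'| * ee p f')) := by
        refine Finset.sum_le_sum fun f _ => Finset.sum_le_sum fun f' _ => ?_
        rw [abs_mul, abs_mul]
        have := TaskA.pair_bound p a 𝓑 X E hp hE0 hE hsep f f'
        calc |t f| * |t f'| * |∑ N ∈ 𝓑, hh p a f N * hh p a f' N -
              X * ∏ i, gram p i (f i) (f' i)|
            ≤ |t f| * |t f'| * (E * (ee p f * ee p f')) := by gcongr
          _ = _ := by ring
    _ = E * (∑ f : ι → Option σ, |t f| * ee p f) ^ 2 := by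
        rw [pow_two, Finset.sum_mul_sum, Finset.mul_sum]
        refine Finset.sum_congr rfl fun f _ => ?_
        rw [Finset.mul_sum]

end H474.AS
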