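import Mathlib
import Pool.Agent.H474R2.AS.Defs

/-!
# The tensor quadratic form of the anti-sieve
-/

open Finset BigOperators

set_option linter.unusedSectionVars false

namespace H474.AS

namespace FormB

variable {σ : Type} [Fintype σ] [DecidableEq σ]

/-- the bilinear form -/
noncomputable def BF (n : ℕ) (p : Fin n → ℕ) (u v : (Fin n → Option σ) → ℝ) : ℝ :=
  ∑ f : Fin n → Option σ, ∑ f' : Fin n → Option σ, u f * v f' * ∏ i, gram p i (f i) (f' i)

/-- upper bound -/
noncomputable def UF (n : ℕ) (p : Fin n → ℕ) (t : (Fin n → Option σ) → ℝ) : ℝ :=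
  ∑ f : Fin n → Option σ, t f ^ 2 / (dd p f : ℝ)

/-- lower bound -/
noncomputable def LF (n : ℕ) (p : Fin n → ℕ) (t : (Fin n → Option σ) → ℝ) : ℝ :=
  ∑ f : Fin n → Option σ, t f ^ 2 / (dd p f : ℝ) *
    ∏ i, (if (f i).isSome then (1 - (Fintype.card σ : ℝ) / p i) else 1)

theorem sum_cons {n : ℕ} {κ : Type} [Fintype κ] (F : (Fin (n + 1) → κ) → ℝ) :
    ∑ f : Fin (n + 1) → κ, F f = ∑ o : κ, ∑ g : Fin n → κ, F (Fin.cons o g) := by
  rw [← Fintype.sum_prod_type' (f := fun (o : κ) (g : Fin n → κ) => F (Fin.cons o g))]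
  symm
  exact Fintype.sum_equiv (Fin.consEquiv fun _ => κ) _ _ (fun _ => rfl)

theorem BF_add_left (n : ℕ) (p : Fin n → ℕ) (u u' v : (Fin n → Option σ) → ℝ) :
    BF n p (fun f => u f + u' f) v = BF n p u v + BF n p u' v := by
  unfold BF
  rw [← sum_add_distrib]
  refine sum_congr rfl fun f _ => ?_
  rw [← sum_add_distrib]
  refine sum_congr rfl fun f' _ => ?_
  ring

theorem BF_sub_sub (n : ℕ) (p : Fin n → ℕ) (u v : (Fin n → Option σ) → ℝ) :
    BF n p (fun f => u f - v f) (fun f => u f - v f) =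
      BF n p u u - BF n p u v - BF n p v u + BF n p v v := by
  unfold BF
  rw [← sum_sub_distrib, ← sum_sub_distrib, ← sum_add_distrib]
  refine sum_congr rfl fun f _ => ?_
  rw [← sum_sub_distrib, ← sum_sub_distrib, ← sum_add_distrib]
  refine sum_congr rfl fun f' _ => ?_
  ring

theorem BF_sum_sum (n : ℕ) (p : Fin n → ℕ) {κ : Type} [Fintype κ]
    (u : κ → (Fin n → Option σ) → ℝ) :
    BF n p (fun f => ∑ s, u s f) (fun f => ∑ s, u s f) = ∑ s, ∑ s', BF n p (u s) (u s') := by
  unfold BF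
  have h1 : ∀ f f' : Fin n → Option σ, (∑ s, u s f) * (∑ s, u s f') *
      ∏ i, gram p i (f i) (f' i) = ∑ s, ∑ s', u s f * u s' f' * ∏ i, gram p i (f i) (f' i) := by
    intro f f'
    rw [sum_mul_sum, sum_mul]
    refine sum_congr rfl fun s _ => ?_
    rw [sum_mul]
  simp_rw [h1]
  -- move the sums over `f, f'` inside
  calc ∑ f : Fin n → Option σ, ∑ f' : Fin n → Option σ, ∑ s, ∑ s',
        u s f * u s' f' * ∏ i, gram p i (f i) (f' i)
      = ∑ f : Fin n → Option σ, ∑ s, ∑ f' : Fin n → Option σ, ∑ s',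
        u s f * u s' f' * ∏ i, gram p i (f i) (f' i) :=
        sum_congr rfl fun f _ => sum_comm
    _ = ∑ s, ∑ f : Fin n → Option σ, ∑ f' : Fin n → Option σ, ∑ s',
        u s f * u s' f' * ∏ i, gram p i (f i) (f' i) := sum_comm
    _ = ∑ s, ∑ f : Fin n → Option σ, ∑ s', ∑ f' : Fin n → Option σ,
        u s f * u s' f' * ∏ i, gram p i (f i) (f' i) :=
        sum_congr rfl fun s _ => sum_congr rfl fun f _ => sum_comm
    _ = ∑ s, ∑ s', ∑ f : Fin n → Option σ, ∑ f' : Fin n → Option σ,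
        u s f * u s' f' * ∏ i, gram p i (f i) (f' i) :=
        sum_congr rfl fun s _ => sum_comm

/-- Cauchy-Schwarz for a nonnegative form -/
theorem BF_cauchy (n : ℕ) (p : Fin n → ℕ) (hpos : ∀ t, 0 ≤ BF (σ := σ) n p t t)
    (u : σ → (Fin n → Option σ) → ℝ) :
    BF n p (fun f => ∑ s, u s f) (fun f => ∑ s, u s f) ≤
      (Fintype.card σ : ℝ) * ∑ s, BF n p (u s) (u s) := by
  have h1 : 0 ≤ ∑ s, ∑ s', BF n p (fun f => u s f - u s' f) (fun f => u s f - u s' f) :=
    sum_nonneg fun s _ => sum_nonneg fun s' _ => hpos _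
  simp_rw [BF_sub_sub] at h1
  simp only [sum_add_distrib, sum_sub_distrib] at h1
  rw [BF_sum_sum]
  have h2 : ∑ s, ∑ s', BF n p (u s') (u s) = ∑ s, ∑ s', BF n p (u s) (u s') := sum_comm
  have h3 : ∑ s : σ, ∑ _s' : σ, BF n p (u s) (u s) =
      (Fintype.card σ : ℝ) * ∑ s, BF n p (u s) (u s) := by
    simp only [sum_const, card_univ, nsmul_eq_mul]
    rw [← mul_sum]
  have h4 : ∑ _s : σ, ∑ s' : σ, BF n p (u s') (u s') =
      (Fintype.card σ : ℝ) * ∑ s, BF n p (u s) (u s) := by
    rw [sum_const, card_univ, nsmul_eq_mul]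
  rw [h2, h3, h4] at h1
  linarith

theorem gram_succ {n : ℕ} (p : Fin (n + 1) → ℕ) (i : Fin n) (o o' : Option σ) :
    gram p i.succ o o' = gram (fun j => p j.succ) i o o' := rfl

theorem BF_succ (n : ℕ) (p : Fin (n + 1) → ℕ) (t : (Fin (n + 1) → Option σ) → ℝ) :
    BF (n + 1) p t t =
      BF n (fun j => p j.succ) (fun g => t (Fin.cons none g)) (fun g => t (Fin.cons none g)) +
      (1 / (p 0 : ℝ)) * ∑ s, BF n (fun j => p j.succ) (fun g => t (Fin.cons (some s) g))
        (fun g => t (Fin.cons (some s) g)) -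
      (1 / (p 0 : ℝ) ^ 2) * BF n (fun j => p j.succ) (fun g => ∑ s, t (Fin.cons (some s) g))
        (fun g => ∑ s, t (Fin.cons (some s) g)) := by
  have h1 : BF (n + 1) p t t = ∑ o : Option σ, ∑ o' : Option σ, gram p 0 o o' *
      BF n (fun j => p j.succ) (fun g => t (Fin.cons o g)) (fun g => t (Fin.cons o' g)) := by
    unfold BF
    rw [sum_cons]
    refine sum_congr rfl fun o _ => ?_
    have h2 : ∀ g : Fin n → Option σ, ∑ f' : Fin (n + 1) → Option σ,
        t (Fin.cons o g) * t f' * ∏ i, gram p i ((Fin.cons o g : Fin (n + 1) → Option σ) i) (f' i) =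
        ∑ o' : Option σ, ∑ g' : Fin n → Option σ, gram p 0 o o' *
          (t (Fin.cons o g) * t (Fin.cons o' g') *
            ∏ i, gram (fun j => p j.succ) i (g i) (g' i)) := by
      intro g
      rw [sum_cons]
      refine sum_congr rfl fun o' _ => sum_congr rfl fun g' _ => ?_
      rw [Fin.prod_univ_succ]
      simp only [Fin.cons_zero, Fin.cons_succ, gram_succ]
      ring
    simp_rw [h2]
    rw [sum_comm]
    refine sum_congr rfl fun o' _ => ?_
    rw [mul_sum]
    refine sum_congr rfl fun g _ => ?_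
    rw [mul_sum]
  rw [h1, Fintype.sum_option]
  simp_rw [Fintype.sum_option]
  simp only [gram, one_mul, zero_mul, sum_const_zero, add_zero, zero_add]
  rw [BF_sum_sum, add_sub_assoc]
  congr 1
  have h3 : ∀ s s' : σ, ((if s = s' then 1 / (p 0 : ℝ) else 0) - 1 / (p 0 : ℝ) ^ 2) *
      BF n (fun j => p j.succ) (fun g => t (Fin.cons (some s) g))
        (fun g => t (Fin.cons (some s') g)) =
      (if s = s' then (1 / (p 0 : ℝ)) * BF n (fun j => p j.succ)
        (fun g => t (Fin.cons (some s) g)) (fun g => t (Fin.cons (some s') g)) else 0) -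
      1 / (p 0 : ℝ) ^ 2 * BF n (fun j => p j.succ) (fun g => t (Fin.cons (some s) g))
        (fun g => t (Fin.cons (some s') g)) := by
    intro s s'
    split_ifs <;> ring
  simp_rw [h3, sum_sub_distrib, Finset.sum_ite_eq, mem_univ, if_true, ← mul_sum]

theorem dd_cons {n : ℕ} (p : Fin (n + 1) → ℕ) (o : Option σ) (g : Fin n → Option σ) :
    dd p (Fin.cons o g) = (if o.isSome then p 0 else 1) * dd (fun j => p j.succ) g := by
  unfold dd
  rw [Fin.prod_univ_succ]
  simp only [Fin.cons_zero, Fin.cons_succ]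

theorem UF_succ (n : ℕ) (p : Fin (n + 1) → ℕ) (t : (Fin (n + 1) → Option σ) → ℝ) :
    UF (n + 1) p t = UF n (fun j => p j.succ) (fun g => t (Fin.cons none g)) +
      (1 / (p 0 : ℝ)) * ∑ s, UF n (fun j => p j.succ) (fun g => t (Fin.cons (some s) g)) := by
  unfold UF
  rw [sum_cons, Fintype.sum_option]
  congr 1
  · refine sum_congr rfl fun g _ => ?_
    rw [dd_cons]
    simp
  · rw [mul_sum]
    refine sum_congr rfl fun s _ => ?_
    rw [mul_sum]
    refine sum_congr rfl fun g _ => ?_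
    rw [dd_cons]
    simp only [Option.isSome_some, if_true]
    push_cast
    rw [one_div, div_mul_eq_div_div_swap]
    ring

theorem LF_succ (n : ℕ) (p : Fin (n + 1) → ℕ) (t : (Fin (n + 1) → Option σ) → ℝ) :
    LF (n + 1) p t = LF n (fun j => p j.succ) (fun g => t (Fin.cons none g)) +
      (1 / (p 0 : ℝ)) * (1 - (Fintype.card σ : ℝ) / p 0) *
        ∑ s, LF n (fun j => p j.succ) (fun g => t (Fin.cons (some s) g)) := by
  unfold LF
  rw [sum_cons, Fintype.sum_option]
  congr 1
  · refine sum_congr rfl fun g _ => ?_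
    rw [dd_cons, Fin.prod_univ_succ]
    simp
  · rw [mul_sum]
    refine sum_congr rfl fun s _ => ?_
    rw [mul_sum]
    refine sum_congr rfl fun g _ => ?_
    rw [dd_cons, Fin.prod_univ_succ]
    simp only [Option.isSome_some, if_true, Fin.cons_zero, Fin.cons_succ]
    push_cast
    rw [one_div, div_mul_eq_div_div_swap]
    ring

theorem bounds (n : ℕ) : ∀ (p : Fin n → ℕ), (∀ i, 2 ≤ p i) →
    (∀ i, (Fintype.card σ : ℝ) ≤ p i) → ∀ t : (Fin n → Option σ) → ℝ,
    LF n p t ≤ BF n p t t ∧ BF n p t t ≤ UF n p t ∧ 0 ≤ BF n p t t := by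
  induction n with
  | zero =>
    intro p _ _ t
    obtain ⟨x⟩ : Nonempty (Fin 0 → Option σ) := inferInstance
    have h1 : BF 0 p t t = t x ^ 2 := by
      unfold BF
      rw [Fintype.sum_unique, Fintype.sum_unique, Fin.prod_univ_zero, mul_one, ← sq]
      exact congrArg (fun z => t z ^ 2) (Subsingleton.elim _ _)
    have h2 : UF 0 p t = t x ^ 2 := by
      unfold UF dd
      rw [Fintype.sum_unique, Fin.prod_univ_zero, Nat.cast_one, div_one]
      exact congrArg (fun z => t z ^ 2) (Subsingleton.elim _ _)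
    have h3 : LF 0 p t = t x ^ 2 := by
      unfold LF dd
      rw [Fintype.sum_unique, Fin.prod_univ_zero, Fin.prod_univ_zero, Nat.cast_one, div_one,
        mul_one]
      exact congrArg (fun z => t z ^ 2) (Subsingleton.elim _ _)
    rw [h1, h2, h3]
    exact ⟨le_rfl, le_rfl, sq_nonneg _⟩
  | succ n ih =>
    intro p hp hK t
    have hp0 : (0 : ℝ) < p 0 := by
      have := hp 0
      exact_mod_cast (by omega : 0 < p 0)
    have ih' := ih (fun j => p j.succ) (fun i => hp i.succ) (fun i => hK i.succ)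
    have hc : (0 : ℝ) ≤ 1 - (Fintype.card σ : ℝ) / p 0 := by
      rw [sub_nonneg, div_le_one hp0]
      exact hK 0
    have hsum0 : 0 ≤ ∑ s : σ, BF n (fun j => p j.succ) (fun g => t (Fin.cons (some s) g))
        (fun g => t (Fin.cons (some s) g)) := sum_nonneg fun s _ => (ih' _).2.2
    have hlow : LF (n + 1) p t ≤ BF (n + 1) p t t ∧ 0 ≤ BF (n + 1) p t t := by
      have h1 := BF_cauchy n (fun j => p j.succ) (fun t => (ih' t).2.2)
        (fun s g => t (Fin.cons (some s) g))
      have h2 : BF n (fun j => p j.succ) (fun g => t (Fin.cons none g))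
          (fun g => t (Fin.cons none g)) + (1 / (p 0 : ℝ)) * (1 - (Fintype.card σ : ℝ) / p 0) *
          ∑ s, BF n (fun j => p j.succ) (fun g => t (Fin.cons (some s) g))
        (fun g => t (Fin.cons (some s) g)) ≤ BF (n + 1) p t t := by
        rw [BF_succ]
        have h3 := mul_le_mul_of_nonneg_left h1 (by positivity : (0 : ℝ) ≤ 1 / (p 0 : ℝ) ^ 2)
        have h4 : (1 / (p 0 : ℝ)) * (1 - (Fintype.card σ : ℝ) / p 0) *
            (∑ s, BF n (fun j => p j.succ) (fun g => t (Fin.cons (some s) g))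
              (fun g => t (Fin.cons (some s) g))) =
            (1 / (p 0 : ℝ)) * (∑ s, BF n (fun j => p j.succ) (fun g => t (Fin.cons (some s) g))
              (fun g => t (Fin.cons (some s) g))) -
            1 / (p 0 : ℝ) ^ 2 * ((Fintype.card σ : ℝ) *
              ∑ s, BF n (fun j => p j.succ) (fun g => t (Fin.cons (some s) g))
              (fun g => t (Fin.cons (some s) g))) := by
          field_simp
        rw [h4]
        linarith
      refine ⟨le_trans ?_ h2, le_trans ?_ h2⟩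
      · rw [LF_succ]
        refine add_le_add (ih' _).1 ?_
        exact mul_le_mul_of_nonneg_left (sum_le_sum fun s _ => (ih' _).1)
          (mul_nonneg (by positivity) hc)
      · exact add_nonneg (ih' _).2.2 (mul_nonneg (mul_nonneg (by positivity) hc) hsum0)
    refine ⟨hlow.1, ?_, hlow.2⟩
    rw [BF_succ, UF_succ]
    have h5 := (ih' (fun g => ∑ s, t (Fin.cons (some s) g))).2.2
    have h6 := mul_nonneg (by positivity : (0 : ℝ) ≤ 1 / (p 0 : ℝ) ^ 2) h5
    have h7 := (ih' (fun g => t (Fin.cons none g))).2.1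
    have h8 := mul_le_mul_of_nonneg_left (sum_le_sum fun (s : σ) (_ : s ∈ univ) =>
      (ih' (fun g => t (Fin.cons (some s) g))).2.1) (by positivity : (0 : ℝ) ≤ 1 / (p 0 : ℝ))
    linarith

end FormB

variable {ι σ : Type} [Fintype ι] [DecidableEq ι] [Fintype σ] [DecidableEq σ]

theorem form_both (p : ι → ℕ) (hp : ∀ i, 2 ≤ p i) (hK : ∀ i, (Fintype.card σ : ℝ) ≤ p i)
    (t : (ι → Option σ) → ℝ) :
    ∑ f : ι → Option σ, t f ^ 2 / (dd p f : ℝ) *
        ∏ i, (if (f i).isSome then (1 - (Fintype.card σ : ℝ) / p i) else 1)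
      ≤ ∑ f : ι → Option σ, ∑ f' : ι → Option σ, t f * t f' * ∏ i, gram p i (f i) (f' i) ∧
    ∑ f : ι → Option σ, ∑ f' : ι → Option σ, t f * t f' * ∏ i, gram p i (f i) (f' i)
      ≤ ∑ f : ι → Option σ, t f ^ 2 / (dd p f : ℝ) := by
  let e : ι ≃ Fin (Fintype.card ι) := Fintype.equivFin ι
  set n := Fintype.card ι with hn
  let E : (Fin n → Option σ) ≃ (ι → Option σ) := Equiv.arrowCongr e.symm (Equiv.refl _)
  have hE : ∀ (g : Fin n → Option σ) (i : ι), E g i = g (e i) := fun g i => rfl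
  have hb := FormB.bounds (σ := σ) n (fun j => p (e.symm j)) (fun j => hp _) (fun j => hK _)
    (fun g => t (E g))
  have hdd : ∀ g : Fin n → Option σ, dd p (E g) = dd (fun j => p (e.symm j)) g := by
    intro g
    unfold dd
    refine Fintype.prod_equiv e _ _ fun i => ?_
    simp only [hE, Equiv.symm_apply_apply]
  have h1 : FormB.UF n (fun j => p (e.symm j)) (fun g => t (E g)) =
      ∑ f : ι → Option σ, t f ^ 2 / (dd p f : ℝ) := by
    unfold FormB.UF
    refine Fintype.sum_equiv E _ _ fun g => ?_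
    rw [hdd]
  have h2 : FormB.LF n (fun j => p (e.symm j)) (fun g => t (E g)) =
      ∑ f : ι → Option σ, t f ^ 2 / (dd p f : ℝ) *
        ∏ i, (if (f i).isSome then (1 - (Fintype.card σ : ℝ) / p i) else 1) := by
    unfold FormB.LF
    refine Fintype.sum_equiv E _ _ fun g => ?_
    rw [hdd]
    congr 1
    symm
    refine Fintype.prod_equiv e _ _ fun i => ?_
    simp only [hE, Equiv.symm_apply_apply]
  have h3 : FormB.BF n (fun j => p (e.symm j)) (fun g => t (E g)) (fun g => t (E g)) =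
      ∑ f : ι → Option σ, ∑ f' : ι → Option σ, t f * t f' * ∏ i, gram p i (f i) (f' i) := by
    unfold FormB.BF
    refine Fintype.sum_equiv E _ _ fun g => ?_
    refine Fintype.sum_equiv E _ _ fun g' => ?_
    congr 1
    symm
    refine Fintype.prod_equiv e _ _ fun i => ?_
    rw [hE, hE]
    have : gram (fun j => p (e.symm j)) (e i) (g (e i)) (g' (e i)) =
        gram p (e.symm (e i)) (g (e i)) (g' (e i)) := rfl
    rw [this, Equiv.symm_apply_apply]
  rw [h1, h2, h3] at hb
  exact ⟨hb.1, hb.2.1⟩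

theorem form_le (p : ι → ℕ) (hp : ∀ i, 2 ≤ p i) (hK : ∀ i, (Fintype.card σ : ℝ) ≤ p i)
    (t : (ι → Option σ) → ℝ) :
    ∑ f : ι → Option σ, ∑ f' : ι → Option σ, t f * t f' * ∏ i, gram p i (f i) (f' i)
      ≤ ∑ f : ι → Option σ, t f ^ 2 / (dd p f : ℝ) :=
  (form_both p hp hK t).2

theorem form_ge (p : ι → ℕ) (hp : ∀ i, 2 ≤ p i) (hK : ∀ i, (Fintype.card σ : ℝ) ≤ p i)
    (t : (ι → Option σ) → ℝ) :
    ∑ f : ι → Option σ, t f ^ 2 / (dd p f : ℝ) *
        ∏ i, (if (f i).isSome then (1 - (Fintype.card σ : ℝ) / p i) else 1)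
      ≤ ∑ f : ι → Option σ, ∑ f' : ι → Option σ, t f * t f' * ∏ i, gram p i (f i) (f' i) :=
  (form_both p hp hK t).1

end H474.AS
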