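import Mathlib

namespace H474.AS

/-- primes in `(L^5, exp(L^{9/10})]` not dividing `q` -/
noncomputable def PP (L : ℝ) (q : ℕ) : Finset ℕ :=
  (Finset.range (⌊Real.exp (L ^ (9 / 10 : ℝ))⌋₊ + 1)).filter
    (fun p => p.Prime ∧ L ^ 5 < (p : ℝ) ∧ ¬ p ∣ q)

end H474.AS
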