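import Pool.Agent.H474R2.AS.PPdef
import Pool.Agent.H381R2.HR.M

/-!
# Mertens-type sums over squarefree integers without small prime factors
-/

set_option autoImplicit false

open Finset

namespace H474.AS

namespace RoughAux

/-- the sum of `1/n` over `n ∈ [1,N]` without prime factors in `T` -/
noncomputable def GG (T : Finset ℕ) (N : ℕ) : ℝ :=
  ∑ n ∈ (Icc 1 N).filter (fun n => ∀ r ∈ T, ¬ r ∣ n), 1 / (n : ℝ)

theorem GG_nonneg (T : Finset ℕ) (N : ℕ) : 0 ≤ GG T N := sum_nonneg fun n _ => by positivity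

theorem GG_step (T : Finset ℕ) (N p : ℕ) (hp : p.Prime) :
    (1 - 1 / (p : ℝ)) * GG T N ≤ GG (insert p T) N := by
  classical
  have hp0 : (0 : ℝ) < p := by exact_mod_cast hp.pos
  set F := (Icc 1 N).filter (fun n => ∀ r ∈ T, ¬ r ∣ n) with hF
  have h1 : GG T N = GG (insert p T) N + ∑ n ∈ F.filter (fun n => p ∣ n), 1 / (n : ℝ) := by
    have : (Icc 1 N).filter (fun n => ∀ r ∈ insert p T, ¬ r ∣ n) = F.filter (fun n => ¬ p ∣ n) := by
      rw [hF, filter_filter]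
      refine filter_congr fun n _ => ?_
      simp only [mem_insert, forall_eq_or_imp]
      tauto
    unfold GG
    rw [this, ← hF]
    rw [← Finset.sum_filter_add_sum_filter_not F (fun n => ¬ p ∣ n)]
    simp only [not_not]
  have h2 : ∑ n ∈ F.filter (fun n => p ∣ n), 1 / (n : ℝ) ≤ (1 / (p : ℝ)) * GG T N := by
    have hinj : Set.InjOn (fun n => n / p) ((F.filter (fun n => p ∣ n) : Finset ℕ) : Set ℕ) := by
      intro a ha b hb hab
      simp only [coe_filter, Set.mem_ofPred_eq] at ha hb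
      have h3 := Nat.div_mul_cancel ha.2
      have h4 := Nat.div_mul_cancel hb.2
      simp only at hab
      rw [← h3, ← h4, hab]
    calc ∑ n ∈ F.filter (fun n => p ∣ n), 1 / (n : ℝ)
        = ∑ n ∈ F.filter (fun n => p ∣ n), (1 / (p : ℝ)) * (1 / ((n / p : ℕ) : ℝ)) := by
          refine sum_congr rfl fun n hn => ?_
          rw [mem_filter] at hn
          obtain ⟨k, rfl⟩ := hn.2
          rw [Nat.mul_div_cancel_left _ hp.pos]
          push_cast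
          rw [one_div_mul_one_div]
      _ = (1 / (p : ℝ)) * ∑ n ∈ (F.filter (fun n => p ∣ n)).image (fun n => n / p), 1 / (n : ℝ) := by
          rw [← mul_sum, sum_image hinj]
      _ ≤ _ := by
          refine mul_le_mul_of_nonneg_left ?_ (by positivity)
          refine sum_le_sum_of_subset_of_nonneg ?_ (fun n _ _ => by positivity)
          intro m hm
          rw [mem_image] at hm
          obtain ⟨n, hn, rfl⟩ := hm
          rw [mem_filter, hF, mem_filter, mem_Icc] at hn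
          obtain ⟨⟨⟨hn1, hn2⟩, hn3⟩, k, rfl⟩ := hn
          rw [Nat.mul_div_cancel_left _ hp.pos]
          rw [mem_filter, mem_Icc]
          have hk : 1 ≤ k := by
            rcases Nat.eq_zero_or_pos k with h | h
            · subst h; simp at hn1
            · exact h
          refine ⟨⟨hk, le_trans (Nat.le_mul_of_pos_left _ hp.pos) hn2⟩, fun r hr hrk => ?_⟩
          exact hn3 r hr (dvd_mul_of_dvd_right hrk _)
  have h3 : (1 - 1 / (p : ℝ)) * GG T N = GG T N - (1 / (p : ℝ)) * GG T N := by ring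
  rw [h3]
  linarith

theorem GG_lower (T : Finset ℕ) (N : ℕ) (hT : ∀ p ∈ T, p.Prime) :
    (∏ p ∈ T, (1 - 1 / (p : ℝ))) * GG ∅ N ≤ GG T N := by
  classical
  induction T using Finset.induction_on with
  | empty => simp
  | insert p T hpT ih =>
    have hp : p.Prime := hT p (mem_insert_self _ _)
    have hp1 : (1 : ℝ) ≤ p := by exact_mod_cast hp.one_lt.le
    have h0 : 0 ≤ 1 - 1 / (p : ℝ) := by
      rw [sub_nonneg, div_le_one (by linarith)]; exact hp1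
    rw [prod_insert hpT, mul_assoc]
    refine (mul_le_mul_of_nonneg_left (ih fun r hr => hT r (mem_insert_of_mem hr)) h0).trans ?_
    exact GG_step T N p hp

theorem log_le_GG_empty (N : ℕ) : Real.log (N + 1) ≤ GG ∅ N := by
  have := log_add_one_le_harmonic N
  rw [harmonic_eq_sum_Icc] at this
  push_cast at this
  unfold GG
  simpa using this

/-- the sum of `1/m` over the squarefree `m ≤ Y` composed of elements of `P` -/
noncomputable def Sg (P : Finset ℕ) (Y : ℝ) : ℝ :=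
  ∑ e ∈ P.powerset.filter (fun e => ((∏ p ∈ e, p : ℕ) : ℝ) ≤ Y), 1 / ((∏ p ∈ e, p : ℕ) : ℝ)

theorem sum_inv_sq (N : ℕ) : ∑ j ∈ Icc 1 N, 1 / ((j : ℝ) ^ 2) ≤ 2 := by
  have h := sum_Ioo_inv_sq_le (α := ℝ) 0 (N + 1)
  have h2 : Ioo 0 (N + 1) = Icc 1 N := by ext; simp; omega
  rw [h2] at h
  simpa using h

theorem GG_le (T P : Finset ℕ) (Y : ℝ) (hY : 0 ≤ Y)
    (hP : ∀ p : ℕ, p.Prime → (p : ℝ) ≤ Y → p ∉ T → p ∈ P) :
    GG T ⌊Y⌋₊ ≤ Sg P Y * 2 := by
  classical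
  choose a b hab hsq using Nat.sq_mul_squarefree
  set N := ⌊Y⌋₊ with hN
  set F := (Icc 1 N).filter (fun n => ∀ r ∈ T, ¬ r ∣ n) with hF
  have hpos : ∀ n ∈ F, 1 ≤ n ∧ n ≤ N ∧ (∀ r ∈ T, ¬ r ∣ n) ∧ 1 ≤ a n ∧ 1 ≤ b n := by
    intro n hn
    rw [hF, mem_filter, mem_Icc] at hn
    refine ⟨hn.1.1, hn.1.2, hn.2, ?_, ?_⟩
    · rcases Nat.eq_zero_or_pos (a n) with h | h
      · have := hab n; rw [h] at this; omega
      · exact h
    · rcases Nat.eq_zero_or_pos (b n) with h | h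
      · have := hab n; rw [h] at this; omega
      · exact h
  have hprod : ∀ n ∈ F, ∏ p ∈ (a n).primeFactors, p = a n := fun n _ =>
    Nat.prod_primeFactors_of_squarefree (hsq n)
  set G : Finset ℕ × ℕ → ℝ := fun x => (1 / ((∏ p ∈ x.1, p : ℕ) : ℝ)) * (1 / ((x.2 : ℝ) ^ 2)) with hG
  have h1 : GG T N = ∑ n ∈ F, G ((a n).primeFactors, b n) := by
    unfold GG
    refine sum_congr rfl fun n hn => ?_
    rw [hG]
    simp only
    rw [hprod n hn, one_div_mul_one_div]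
    congr 1
    have := hab n
    have h2 : ((b n ^ 2 * a n : ℕ) : ℝ) = (n : ℝ) := by rw [this]
    rw [← h2]
    push_cast
    ring
  have hinj : Set.InjOn (fun n => ((a n).primeFactors, b n)) (F : Set ℕ) := by
    intro m hm n hn hmn
    simp only [Prod.mk.injEq] at hmn
    have h3 := hprod m hm
    have h4 := hprod n hn
    rw [hmn.1, h4] at h3
    rw [← hab m, ← hab n, hmn.2, h3]
  have h2 : ∑ n ∈ F, G ((a n).primeFactors, b n) =
      ∑ x ∈ F.image (fun n => ((a n).primeFactors, b n)), G x := by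
    rw [sum_image hinj]
  have h3 : ∑ x ∈ F.image (fun n => ((a n).primeFactors, b n)), G x ≤
      ∑ x ∈ (P.powerset.filter (fun e => ((∏ p ∈ e, p : ℕ) : ℝ) ≤ Y)) ×ˢ (Icc 1 N), G x := by
    refine sum_le_sum_of_subset_of_nonneg ?_ (fun x _ _ => by positivity)
    intro x hx
    rw [mem_image] at hx
    obtain ⟨n, hn, rfl⟩ := hx
    obtain ⟨hn1, hn2, hn3, ha, hb⟩ := hpos n hn
    have han : a n ∣ n := ⟨b n ^ 2, by rw [mul_comm]; exact (hab n).symm⟩
    have hbn : b n ∣ n := ⟨b n * a n, by rw [← mul_assoc, ← sq]; exact (hab n).symm⟩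
    have hnY : (n : ℝ) ≤ Y := (Nat.le_floor_iff hY).1 hn2
    rw [mem_product, mem_filter, mem_powerset, mem_Icc]
    refine ⟨⟨?_, ?_⟩, hb, (Nat.le_of_dvd hn1 hbn).trans hn2⟩
    · intro p hp
      have hpp := Nat.prime_of_mem_primeFactors hp
      have hpa : p ∣ n := (Nat.dvd_of_mem_primeFactors hp).trans han
      refine hP p hpp ?_ (fun hpT => hn3 p hpT hpa)
      have : p ≤ n := Nat.le_of_dvd hn1 hpa
      exact le_trans (by exact_mod_cast this) hnY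
    · simp only
      rw [hprod n hn]
      have : a n ≤ n := Nat.le_of_dvd hn1 han
      exact le_trans (by exact_mod_cast this) hnY
  have h4 : ∑ x ∈ (P.powerset.filter (fun e => ((∏ p ∈ e, p : ℕ) : ℝ) ≤ Y)) ×ˢ (Icc 1 N), G x =
      Sg P Y * ∑ j ∈ Icc 1 N, 1 / ((j : ℝ) ^ 2) := by
    rw [Sg, sum_mul_sum, sum_product]
  rw [h1, h2]
  refine h3.trans ?_
  rw [h4]
  exact mul_le_mul_of_nonneg_left (sum_inv_sq N) (sum_nonneg fun e _ => by positivity)

theorem one_sub_sum_le (s : Finset ℕ) (x : ℕ → ℝ) (h0 : ∀ i ∈ s, 0 ≤ x i) (h1 : ∀ i ∈ s, x i ≤ 1) :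
    1 - ∑ i ∈ s, x i ≤ ∏ i ∈ s, (1 - x i) := by
  classical
  induction s using Finset.induction_on with
  | empty => simp
  | insert i s hi ih =>
    rw [sum_insert hi, prod_insert hi]
    have hi0 := h0 i (mem_insert_self _ _)
    have hi1 := h1 i (mem_insert_self _ _)
    have ih' := ih (fun j hj => h0 j (mem_insert_of_mem hj)) (fun j hj => h1 j (mem_insert_of_mem hj))
    have hs : 0 ≤ ∑ j ∈ s, x j := sum_nonneg fun j hj => h0 j (mem_insert_of_mem hj)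
    have h3 : (1 - x i) * (1 - ∑ j ∈ s, x j) ≤ (1 - x i) * ∏ j ∈ s, (1 - x j) :=
      mul_le_mul_of_nonneg_left ih' (by linarith)
    nlinarith


/-- the number of large prime factors of `q` is at most `L` -/
theorem card_large (L : ℝ) (hL : 3 ≤ L) (q : ℕ) (hq : 0 < q) (hqL : (q : ℝ) ≤ Real.exp (2 * L)) :
    ((q.primeFactors.filter (fun p : ℕ => L ^ 5 < (p : ℝ))).card : ℝ) ≤ L := by
  set T2 := q.primeFactors.filter (fun p : ℕ => L ^ 5 < (p : ℝ)) with hT2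
  have h1 : (L ^ 5) ^ T2.card ≤ ∏ p ∈ T2, (p : ℝ) := by
    rw [← prod_const]
    refine prod_le_prod (fun _ _ => by positivity) (fun p hp => ?_)
    rw [hT2, mem_filter] at hp
    exact hp.2.le
  have h2 : ∏ p ∈ T2, (p : ℝ) ≤ (q : ℝ) := by
    have h3 : ∏ p ∈ T2, p ∣ ∏ p ∈ q.primeFactors, p :=
      prod_dvd_prod_of_subset _ _ _ (filter_subset _ _)
    have h4 : ∏ p ∈ T2, p ≤ q := Nat.le_of_dvd hq (h3.trans (Nat.prod_primeFactors_dvd q))
    calc ∏ p ∈ T2, (p : ℝ) = ((∏ p ∈ T2, p : ℕ) : ℝ) := by push_cast; rfl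
      _ ≤ q := by exact_mod_cast h4
  have h5 : Real.exp 2 ≤ L ^ 5 := by
    have h6 : Real.exp 2 = Real.exp 1 * Real.exp 1 := by rw [← Real.exp_add]; norm_num
    have h7 := Real.exp_one_lt_d9
    have h8 : (3 : ℝ) ^ 5 ≤ L ^ 5 := pow_le_pow_left₀ (by norm_num) hL 5
    have h9 := Real.exp_pos 1
    nlinarith
  have h6 : Real.exp (2 * T2.card) ≤ Real.exp (2 * L) := by
    calc Real.exp (2 * T2.card) = (Real.exp 2) ^ T2.card := by
          rw [← Real.exp_nat_mul]; ring_nf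
      _ ≤ (L ^ 5) ^ T2.card := pow_le_pow_left₀ (Real.exp_pos _).le h5 _
      _ ≤ _ := h1.trans (h2.trans hqL)
  have h7 := Real.exp_le_exp.1 h6
  linarith

theorem prod_large (L : ℝ) (hL : 3 ≤ L) (q : ℕ) (hq : 0 < q) (hqL : (q : ℝ) ≤ Real.exp (2 * L)) :
    1 / 2 ≤ ∏ p ∈ q.primeFactors.filter (fun p : ℕ => L ^ 5 < (p : ℝ)), (1 - 1 / (p : ℝ)) := by
  set T2 := q.primeFactors.filter (fun p : ℕ => L ^ 5 < (p : ℝ)) with hT2
  have hL5 : (0 : ℝ) < L ^ 5 := by positivity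
  have h0 : ∀ p ∈ T2, (1 : ℝ) / p ≤ 1 / L ^ 5 := by
    intro p hp
    rw [hT2, mem_filter] at hp
    exact one_div_le_one_div_of_le hL5 hp.2.le
  have h1 : (1 : ℝ) / L ^ 5 ≤ 1 := by
    rw [div_le_one hL5]
    have : (3 : ℝ) ^ 5 ≤ L ^ 5 := pow_le_pow_left₀ (by norm_num) hL 5
    linarith
  refine le_trans ?_ (one_sub_sum_le T2 (fun p => 1 / (p : ℝ)) (fun p _ => by positivity)
    (fun p hp => (h0 p hp).trans h1))
  have h2 : ∑ p ∈ T2, (1 : ℝ) / p ≤ T2.card * (1 / L ^ 5) := by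
    rw [← nsmul_eq_mul]
    exact sum_le_card_nsmul _ _ _ h0
  have h3 := card_large L hL q hq hqL
  rw [← hT2] at h3
  have h4 : (T2.card : ℝ) * (1 / L ^ 5) ≤ L * (1 / L ^ 5) :=
    mul_le_mul_of_nonneg_right h3 (by positivity)
  have h5 : L * (1 / L ^ 5) ≤ 1 / 2 := by
    rw [mul_one_div, div_le_div_iff₀ hL5 (by norm_num)]
    have : (3 : ℝ) ^ 4 ≤ L ^ 4 := pow_le_pow_left₀ (by norm_num) hL 4
    nlinarith
  linarith

theorem Sg_lower : ∃ c1 : ℝ, 0 < c1 ∧ ∀ L : ℝ, 3 ≤ L → ∀ q : ℕ, 0 < q →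
    (q : ℝ) ≤ Real.exp (2 * L) → ∀ Y : ℝ, 1 ≤ Y → Y ≤ Real.exp (L ^ (9 / 10 : ℝ)) →
    c1 * (Real.log Y / Real.log L) ≤ Sg (PP L q) Y := by
  classical
  obtain ⟨C, hC1, hC⟩ := Pool.Agent.H381R2.HR.M1
  have hC0 : 0 < C := by linarith
  refine ⟨1 / (20 * C), by positivity, ?_⟩
  intro L hL q hq hqL Y hY hYB
  have hlogL : 0 < Real.log L := Real.log_pos (by linarith)
  have hL5 : (3 : ℝ) ^ 5 ≤ L ^ 5 := pow_le_pow_left₀ (by norm_num) hL 5
  have hw2 : 2 ≤ ⌊L ^ 5⌋₊ := Nat.le_floor (by push_cast; linarith)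
  set w := ⌊L ^ 5⌋₊ with hw
  have hwL : (w : ℝ) ≤ L ^ 5 := Nat.floor_le (by positivity)
  set T1 := Pool.Agent.H381R2.HR.PP w with hT1
  set T2 := q.primeFactors.filter (fun p : ℕ => L ^ 5 < (p : ℝ)) with hT2
  have hdisj : Disjoint T1 T2 := by
    rw [disjoint_left]
    intro p hp1 hp2
    rw [hT1, Pool.Agent.H381R2.HR.PP, mem_filter, mem_Icc] at hp1
    rw [hT2, mem_filter] at hp2
    have h1 : (p : ℝ) ≤ w := by exact_mod_cast hp1.1.2
    linarith [hp2.2]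
  have hTp : ∀ p ∈ T1 ∪ T2, p.Prime := by
    intro p hp
    rw [mem_union] at hp
    rcases hp with hp | hp
    · exact (mem_filter.1 hp).2
    · exact Nat.prime_of_mem_primeFactors (mem_filter.1 hp).1
  have h1 := GG_lower (T1 ∪ T2) ⌊Y⌋₊ hTp
  have h2 : GG (T1 ∪ T2) ⌊Y⌋₊ ≤ Sg (PP L q) Y * 2 := by
    refine GG_le _ _ Y (by linarith) ?_
    intro p hp hpY hpT
    rw [mem_union, not_or] at hpT
    have hL5p : L ^ 5 < (p : ℝ) := by
      by_contra hcon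
      push Not at hcon
      apply hpT.1
      rw [hT1, Pool.Agent.H381R2.HR.PP, mem_filter, mem_Icc]
      exact ⟨⟨hp.one_lt.le, Nat.le_floor hcon⟩, hp⟩
    rw [PP, mem_filter, mem_range]
    refine ⟨?_, hp, hL5p, ?_⟩
    · have : p ≤ ⌊Real.exp (L ^ (9 / 10 : ℝ))⌋₊ := Nat.le_floor (hpY.trans hYB)
      omega
    · intro hpq
      apply hpT.2
      rw [hT2, mem_filter]
      exact ⟨Nat.mem_primeFactors.2 ⟨hp, hpq, hq.ne'⟩, hL5p⟩
  have h3 : Real.log Y ≤ GG ∅ ⌊Y⌋₊ := by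
    refine le_trans ?_ (log_le_GG_empty ⌊Y⌋₊)
    exact Real.log_le_log (by linarith) (Nat.lt_floor_add_one Y).le
  have h4 : 1 / (5 * C * Real.log L) ≤ ∏ p ∈ T1, (1 - 1 / (p : ℝ)) := by
    have h5 : ∏ p ∈ T1, (1 - 1 / (p : ℝ)) = (Pool.Agent.H381R2.HR.BB w)⁻¹ := by
      rw [Pool.Agent.H381R2.HR.BB, prod_inv_distrib, inv_inv]
      refine prod_congr rfl fun p _ => ?_
      rw [one_div]
    rw [h5, one_div]
    have h6 := (hC w hw2).2
    have h7 := Pool.Agent.H381R2.HR.MAux.BB_pos w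
    refine inv_anti₀ h7 (h6.trans ?_)
    have h8 : Real.log w ≤ 5 * Real.log L := by
      rw [← Real.log_rpow (by linarith)]
      · refine Real.log_le_log (by exact_mod_cast (by omega : 0 < w)) ?_
        refine hwL.trans (le_of_eq ?_)
        norm_cast
    nlinarith
  have h5 := prod_large L hL q hq hqL
  rw [← hT2] at h5
  have h6 : 1 / (5 * C * Real.log L) * (1 / 2) ≤ ∏ p ∈ T1 ∪ T2, (1 - 1 / (p : ℝ)) := by
    rw [prod_union hdisj]
    exact mul_le_mul h4 h5 (by norm_num) (le_trans (by positivity) h4)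
  have hlogY : 0 ≤ Real.log Y := Real.log_nonneg hY
  have h7 : 1 / (5 * C * Real.log L) * (1 / 2) * Real.log Y ≤
      (∏ p ∈ T1 ∪ T2, (1 - 1 / (p : ℝ))) * GG ∅ ⌊Y⌋₊ :=
    mul_le_mul h6 h3 hlogY (le_trans (by positivity) h6)
  have h8 : 1 / (20 * C) * (Real.log Y / Real.log L) =
      (1 / (5 * C * Real.log L) * (1 / 2) * Real.log Y) / 2 := by
    field_simp
    ring
  rw [h8]
  linarith

theorem Sg_le_prod (P : Finset ℕ) (Y : ℝ) (hpos : ∀ p ∈ P, 0 < p) :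
    Sg P Y ≤ ∏ p ∈ P.filter (fun p : ℕ => (p : ℝ) ≤ Y), (1 + 1 / (p : ℝ)) := by
  classical
  rw [prod_one_add, Sg]
  calc ∑ e ∈ P.powerset.filter (fun e => ((∏ p ∈ e, p : ℕ) : ℝ) ≤ Y), 1 / ((∏ p ∈ e, p : ℕ) : ℝ)
      ≤ ∑ e ∈ (P.filter (fun p : ℕ => (p : ℝ) ≤ Y)).powerset, 1 / ((∏ p ∈ e, p : ℕ) : ℝ) := by
        refine sum_le_sum_of_subset_of_nonneg ?_ (fun e _ _ => by positivity)
        intro e he
        rw [mem_filter, mem_powerset] at he
        rw [mem_powerset]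
        intro p hp
        rw [mem_filter]
        refine ⟨he.1 hp, le_trans ?_ he.2⟩
        have h1 : p ∣ ∏ p ∈ e, p := dvd_prod_of_mem _ hp
        have h2 : 0 < ∏ p ∈ e, p := prod_pos fun r hr => hpos r (he.1 hr)
        exact_mod_cast Nat.le_of_dvd h2 h1
    _ = _ := by
        refine sum_congr rfl fun e _ => ?_
        push_cast
        rw [one_div, ← prod_inv_distrib]
        refine prod_congr rfl fun p _ => by rw [one_div]

theorem one_add_le_inv (p : ℕ) (hp : p.Prime) : 1 + 1 / (p : ℝ) ≤ (1 - (p : ℝ)⁻¹)⁻¹ := by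
  have h2 : (2 : ℝ) ≤ p := by exact_mod_cast hp.two_le
  have h3 : (p : ℝ)⁻¹ < 1 := inv_lt_one_of_one_lt₀ (by linarith)
  have h4 : 0 < (p : ℝ)⁻¹ := by positivity
  rw [le_inv_comm₀ (by positivity) (by linarith), one_div]
  rw [← one_div (1 + (p : ℝ)⁻¹), le_div_iff₀ (by positivity)]
  nlinarith

theorem Sg_upper : ∃ C1 : ℝ, 0 < C1 ∧ ∀ L : ℝ, 3 ≤ L → ∀ q : ℕ, ∀ Y : ℝ, L ^ 5 ≤ Y →
    Sg (PP L q) Y ≤ C1 * (Real.log Y / Real.log L) := by
  classical
  obtain ⟨C, hC1, hC⟩ := Pool.Agent.H381R2.HR.M1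
  have hC0 : 0 < C := by linarith
  refine ⟨C, hC0, ?_⟩
  intro L hL q Y hY
  have hlogL : 0 < Real.log L := Real.log_pos (by linarith)
  have hL5 : (3 : ℝ) ^ 5 ≤ L ^ 5 := pow_le_pow_left₀ (by norm_num) hL 5
  have hw2 : 2 ≤ ⌊L ^ 5⌋₊ := Nat.le_floor (by push_cast; linarith)
  set w := ⌊L ^ 5⌋₊ with hw
  set v := ⌊Y⌋₊ with hv
  have hwv : w ≤ v := Nat.floor_le_floor hY
  have h1 := Sg_le_prod (PP L q) Y (fun p hp => (mem_filter.1 hp).2.1.pos)
  refine h1.trans ?_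
  have h2 : ∏ p ∈ (PP L q).filter (fun p : ℕ => (p : ℝ) ≤ Y), (1 + 1 / (p : ℝ)) ≤
      ∏ p ∈ (Pool.Agent.H381R2.HR.PP v).filter (fun p => w < p), (1 - (p : ℝ)⁻¹)⁻¹ := by
    calc ∏ p ∈ (PP L q).filter (fun p : ℕ => (p : ℝ) ≤ Y), (1 + 1 / (p : ℝ))
        ≤ ∏ p ∈ (Pool.Agent.H381R2.HR.PP v).filter (fun p => w < p), (1 + 1 / (p : ℝ)) := by
          refine prod_le_prod_of_subset_of_one_le ?_ (fun p _ => by positivity) (fun p _ _ => ?_)
          · intro p hp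
            rw [mem_filter, PP, mem_filter] at hp
            rw [mem_filter, Pool.Agent.H381R2.HR.PP, mem_filter, mem_Icc]
            refine ⟨⟨⟨hp.1.2.1.one_lt.le, Nat.le_floor hp.2⟩, hp.1.2.1⟩, ?_⟩
            have h3 : (w : ℝ) ≤ L ^ 5 := Nat.floor_le (by positivity)
            have h4 : (w : ℝ) < p := lt_of_le_of_lt h3 hp.1.2.2.1
            exact_mod_cast h4
          · have : 0 ≤ 1 / (p : ℝ) := by positivity
            linarith
      _ ≤ _ := by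
          refine prod_le_prod (fun p _ => by positivity) (fun p hp => ?_)
          exact one_add_le_inv p (mem_filter.1 (mem_filter.1 hp).1).2
  refine h2.trans ?_
  have h3 : Pool.Agent.H381R2.HR.BB v = Pool.Agent.H381R2.HR.BB w *
      ∏ p ∈ (Pool.Agent.H381R2.HR.PP v).filter (fun p => w < p), (1 - (p : ℝ)⁻¹)⁻¹ := by
    rw [Pool.Agent.H381R2.HR.BB, Pool.Agent.H381R2.HR.BB, ← prod_union]
    · congr 1
      ext p
      simp only [Pool.Agent.H381R2.HR.PP, mem_union, mem_filter, mem_Icc]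
      constructor
      · rintro ⟨⟨h1, h2⟩, h3⟩
        rcases Nat.lt_or_ge w p with h | h
        · exact Or.inr ⟨⟨⟨h1, h2⟩, h3⟩, h⟩
        · exact Or.inl ⟨⟨h1, h⟩, h3⟩
      · rintro (⟨⟨h1, h2⟩, h3⟩ | ⟨⟨⟨h1, h2⟩, h3⟩, h4⟩)
        · exact ⟨⟨h1, by omega⟩, h3⟩
        · exact ⟨⟨h1, h2⟩, h3⟩
    · rw [disjoint_left]
      intro p hp1 hp2
      simp only [Pool.Agent.H381R2.HR.PP, mem_filter, mem_Icc] at hp1 hp2
      omega
  have hBw := Pool.Agent.H381R2.HR.MAux.BB_pos w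
  have hBw2 := (hC w hw2).1
  have hBv2 := (hC v (hw2.trans hwv)).2
  have hlogw : Real.log L ≤ Real.log w := by
    refine Real.log_le_log (by linarith) ?_
    have h4 : L ^ 5 < (w : ℝ) + 1 := Nat.lt_floor_add_one _
    have h5 : (3 : ℝ) ^ 4 ≤ L ^ 4 := pow_le_pow_left₀ (by norm_num) hL 4
    nlinarith
  have hlogv : Real.log v ≤ Real.log Y := by
    refine Real.log_le_log (by exact_mod_cast (by omega : 0 < v)) (Nat.floor_le (by linarith))
  have hlogv0 : 0 ≤ Real.log Y := Real.log_nonneg (by linarith)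
  set Q := ∏ p ∈ (Pool.Agent.H381R2.HR.PP v).filter (fun p => w < p), (1 - (p : ℝ)⁻¹)⁻¹ with hQ
  have hQ0 : 0 ≤ Q := by
    refine prod_nonneg fun p hp => ?_
    exact (Pool.Agent.H381R2.HR.MAux.factor_pos (mem_filter.1 hp).1).le
  rw [← mul_div_assoc, le_div_iff₀ hlogL]
  calc Q * Real.log L ≤ Q * Pool.Agent.H381R2.HR.BB w :=
        mul_le_mul_of_nonneg_left (hlogw.trans hBw2) hQ0
    _ = Pool.Agent.H381R2.HR.BB v := by rw [h3, mul_comm]
    _ ≤ C * Real.log v := hBv2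
    _ ≤ C * Real.log Y := mul_le_mul_of_nonneg_left hlogv hC0.le

/-- the sum of `1/(m log m)` over the squarefree `m ∈ (Y₁, Y₂]` composed of elements of `P` -/
noncomputable def Wn (P : Finset ℕ) (Y₁ Y₂ : ℝ) : ℝ :=
  ∑ e ∈ P.powerset.filter (fun e => Y₁ < ((∏ p ∈ e, p : ℕ) : ℝ) ∧ ((∏ p ∈ e, p : ℕ) : ℝ) ≤ Y₂),
    1 / (((∏ p ∈ e, p : ℕ) : ℝ) * Real.log ((∏ p ∈ e, p : ℕ) : ℝ))

theorem Wn_nonneg (P : Finset ℕ) (Y₁ Y₂ : ℝ) : 0 ≤ Wn P Y₁ Y₂ := by
  refine sum_nonneg fun e _ => ?_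
  have : 0 ≤ Real.log ((∏ p ∈ e, p : ℕ) : ℝ) := Real.log_natCast_nonneg _
  positivity

theorem Wn_add (P : Finset ℕ) {Y₁ Y₂ Y₃ : ℝ} (h12 : Y₁ ≤ Y₂) (h23 : Y₂ ≤ Y₃) :
    Wn P Y₁ Y₃ = Wn P Y₁ Y₂ + Wn P Y₂ Y₃ := by
  classical
  unfold Wn
  rw [← sum_union]
  · congr 1
    ext e
    simp only [mem_filter, mem_union, mem_powerset]
    constructor
    · rintro ⟨h1, h2, h3⟩
      rcases le_or_gt ((∏ p ∈ e, p : ℕ) : ℝ) Y₂ with h | h
      · exact Or.inl ⟨h1, h2, h⟩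
      · exact Or.inr ⟨h1, h, h3⟩
    · rintro (⟨h1, h2, h3⟩ | ⟨h1, h2, h3⟩)
      · exact ⟨h1, h2, h3.trans h23⟩
      · exact ⟨h1, lt_of_le_of_lt h12 h2, h3⟩
  · rw [disjoint_left]
    intro e h1 h2
    simp only [mem_filter] at h1 h2
    linarith [h1.2.2, h2.2.1]

theorem Wn_mono (P : Finset ℕ) {Y₁ Y₂ Y₃ : ℝ} (h12 : Y₁ ≤ Y₂) (h23 : Y₂ ≤ Y₃) :
    Wn P Y₁ Y₂ ≤ Wn P Y₁ Y₃ := by
  rw [Wn_add P h12 h23]
  linarith [Wn_nonneg P Y₂ Y₃]

theorem Wn_ge (P : Finset ℕ) {Y₁ Y₂ : ℝ} (h1 : 1 ≤ Y₁) (h12 : Y₁ < Y₂) :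
    (Sg P Y₂ - Sg P Y₁) / Real.log Y₂ ≤ Wn P Y₁ Y₂ := by
  classical
  have hlog : 0 < Real.log Y₂ := Real.log_pos (by linarith)
  have h2 : Sg P Y₂ - Sg P Y₁ = ∑ e ∈ P.powerset.filter
      (fun e => Y₁ < ((∏ p ∈ e, p : ℕ) : ℝ) ∧ ((∏ p ∈ e, p : ℕ) : ℝ) ≤ Y₂),
      1 / ((∏ p ∈ e, p : ℕ) : ℝ) := by
    rw [sub_eq_iff_eq_add, Sg, Sg, ← sum_union]
    · congr 1
      ext e
      simp only [mem_filter, mem_union, mem_powerset]
      constructor
      · rintro ⟨h3, h4⟩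
        rcases le_or_gt ((∏ p ∈ e, p : ℕ) : ℝ) Y₁ with h | h
        · exact Or.inr ⟨h3, h⟩
        · exact Or.inl ⟨h3, h, h4⟩
      · rintro (⟨h3, h4, h5⟩ | ⟨h3, h4⟩)
        · exact ⟨h3, h5⟩
        · exact ⟨h3, h4.trans h12.le⟩
    · rw [disjoint_left]
      intro e h1 h2
      simp only [mem_filter] at h1 h2
      linarith [h1.2.1, h2.2]
  rw [h2, sum_div, Wn]
  refine sum_le_sum fun e he => ?_
  rw [mem_filter] at he
  have h3 : 0 < Real.log ((∏ p ∈ e, p : ℕ) : ℝ) := Real.log_pos (by linarith [he.2.1])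
  have h4 : Real.log ((∏ p ∈ e, p : ℕ) : ℝ) ≤ Real.log Y₂ :=
    Real.log_le_log (by linarith [he.2.1]) he.2.2
  have h5 : (0 : ℝ) < ((∏ p ∈ e, p : ℕ) : ℝ) := by linarith [he.2.1]
  rw [div_div]
  exact one_div_le_one_div_of_le (by positivity) (mul_le_mul_of_nonneg_left h4 h5.le)


/-- one window -/
theorem window {c1 C1 k L M : ℝ} (P : Finset ℕ) (hc1 : 0 < c1) (hk2 : 2 ≤ k)
    (hkc : 2 * C1 ≤ c1 * k) (hL : 3 ≤ L) (hM : 0 < M)
    (h1 : c1 * (Real.log (Real.exp (M * k)) / Real.log L) ≤ Sg P (Real.exp (M * k)))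
    (h2 : Sg P (Real.exp M) ≤ C1 * (Real.log (Real.exp M) / Real.log L)) :
    c1 / (2 * Real.log L) ≤ Wn P (Real.exp M) (Real.exp (M * k)) := by
  have hlogL : 0 < Real.log L := Real.log_pos (by linarith)
  have hlt : Real.exp M < Real.exp (M * k) := Real.exp_lt_exp.2 (by nlinarith)
  refine le_trans ?_ (Wn_ge P (Real.one_le_exp hM.le) hlt)
  rw [Real.log_exp] at h1 h2 ⊢
  have hMk : 0 < M * k := by nlinarith
  rw [le_div_iff₀ hMk]
  have h3 : c1 * (M * k / Real.log L) - C1 * (M / Real.log L) ≤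
      Sg P (Real.exp (M * k)) - Sg P (Real.exp M) := by linarith
  refine le_trans ?_ h3
  have h4 : c1 * (M * k / Real.log L) - C1 * (M / Real.log L) - c1 / (2 * Real.log L) * (M * k) =
      (c1 * k - 2 * C1) * (M / (2 * Real.log L)) := by
    field_simp
    ring
  have h5 : 0 ≤ (c1 * k - 2 * C1) * (M / (2 * Real.log L)) :=
    mul_nonneg (by linarith) (by positivity)
  linarith

end RoughAux

open RoughAux in
/-- Task G (rough numbers) -/
theorem rough_sums : ∃ c0 : ℝ, 0 < c0 ∧ ∃ L0 : ℝ, ∀ L : ℝ, L0 ≤ L → ∀ q : ℕ, 0 < q →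
    (q : ℝ) ≤ Real.exp (2 * L) →
    (c0 ≤ ∑ e ∈ (PP L q).powerset.filter
        (fun e => Real.exp (L ^ (1 / 2 : ℝ)) < ((∏ p ∈ e, p : ℕ) : ℝ) ∧
          ((∏ p ∈ e, p : ℕ) : ℝ) ≤ Real.exp (L ^ (9 / 10 : ℝ))),
        1 / (((∏ p ∈ e, p : ℕ) : ℝ) * Real.log ((∏ p ∈ e, p : ℕ) : ℝ))) ∧
    (c0 * L ^ (9 / 10 : ℝ) / Real.log L ≤ ∑ e ∈ (PP L q).powerset.filter
        (fun e => ((∏ p ∈ e, p : ℕ) : ℝ) ≤ Real.exp (L ^ (9 / 10 : ℝ))),
        1 / ((∏ p ∈ e, p : ℕ) : ℝ)) ∧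
    ∏ p ∈ PP L q, (1 + 1 / (p : ℝ)) ≤ L := by
  obtain ⟨c1, hc1, hlow⟩ := Sg_lower
  obtain ⟨C1, hC1, hup⟩ := Sg_upper
  obtain ⟨C, hC1', hC⟩ := Pool.Agent.H381R2.HR.M1
  obtain ⟨k, hk⟩ := exists_nat_ge (max 2 (2 * C1 / c1))
  have hk2 : (2 : ℝ) ≤ k := (le_max_left _ _).trans hk
  have hkc : 2 * C1 ≤ c1 * k := by
    have := (le_max_right _ _).trans hk
    rw [div_le_iff₀ hc1] at this
    linarith
  have hlogk : 0 < Real.log k := Real.log_pos (by linarith)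
  have ev1 : ∀ᶠ L : ℝ in Filter.atTop, 5 * Real.log L ≤ L ^ (1 / 2 : ℝ) := by
    have h := (isLittleO_log_rpow_atTop (show (0 : ℝ) < 1 / 2 by norm_num)).def
      (show (0 : ℝ) < 1 / 5 by norm_num)
    filter_upwards [h, Filter.eventually_ge_atTop (1 : ℝ)] with L h1 h2
    rw [Real.norm_of_nonneg (Real.log_nonneg h2), Real.norm_of_nonneg (by positivity)] at h1
    linarith
  have ev2 : ∀ᶠ L : ℝ in Filter.atTop, 5 * Real.log k ≤ Real.log L :=
    Real.tendsto_log_atTop.eventually_ge_atTop _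
  have ev3 : ∀ᶠ L : ℝ in Filter.atTop, C ≤ L ^ (1 / 10 : ℝ) :=
    (tendsto_rpow_atTop (show (0 : ℝ) < 1 / 10 by norm_num)).eventually_ge_atTop _
  obtain ⟨L0, hL0⟩ := Filter.eventually_atTop.1
    (((ev1.and ev2).and ev3).and (Filter.eventually_ge_atTop (3 : ℝ)))
  refine ⟨min c1 (c1 / (10 * Real.log k)), lt_min hc1 (by positivity), L0, ?_⟩
  intro L hL q hq hqL
  obtain ⟨⟨⟨e1, e2⟩, e3⟩, e4⟩ := hL0 L hL
  have hlogL : 0 < Real.log L := Real.log_pos (by linarith)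
  have hL9 : (0 : ℝ) < L ^ (9 / 10 : ℝ) := by positivity
  refine ⟨?_, ?_, ?_⟩
  · refine (min_le_right _ _).trans ?_
    change _ ≤ Wn (PP L q) (Real.exp (L ^ (1 / 2 : ℝ))) (Real.exp (L ^ (9 / 10 : ℝ)))
    have hind : ∀ J : ℕ, L ^ (1 / 2 : ℝ) * (k : ℝ) ^ J ≤ L ^ (9 / 10 : ℝ) →
        J * (c1 / (2 * Real.log L)) ≤
          Wn (PP L q) (Real.exp (L ^ (1 / 2 : ℝ))) (Real.exp (L ^ (1 / 2 : ℝ) * (k : ℝ) ^ J)) := by
      intro J
      induction J with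
      | zero =>
        intro _
        simp only [Nat.cast_zero, zero_mul]
        exact Wn_nonneg _ _ _
      | succ J ih =>
        intro hJ
        have hkJ : (1 : ℝ) ≤ (k : ℝ) ^ J := one_le_pow₀ (by linarith)
        have hLh : (0 : ℝ) < L ^ (1 / 2 : ℝ) := by positivity
        have hM : 0 < L ^ (1 / 2 : ℝ) * (k : ℝ) ^ J := by positivity
        have hstep : L ^ (1 / 2 : ℝ) * (k : ℝ) ^ (J + 1) = (L ^ (1 / 2 : ℝ) * (k : ℝ) ^ J) * k := by
          rw [pow_succ]; ring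
        rw [hstep] at hJ ⊢
        have hJ' : L ^ (1 / 2 : ℝ) * (k : ℝ) ^ J ≤ L ^ (9 / 10 : ℝ) := by nlinarith
        have h1 := ih hJ'
        have hge1 : L ^ (1 / 2 : ℝ) ≤ L ^ (1 / 2 : ℝ) * (k : ℝ) ^ J :=
          le_mul_of_one_le_right hLh.le hkJ
        have h2 := hlow L e4 q hq hqL (Real.exp (L ^ (1 / 2 : ℝ) * (k : ℝ) ^ J * k))
          (Real.one_le_exp (by positivity)) (Real.exp_le_exp.2 hJ)
        have h3 := hup L e4 q (Real.exp (L ^ (1 / 2 : ℝ) * (k : ℝ) ^ J)) (by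
          have : L ^ 5 = Real.exp (5 * Real.log L) := by
            rw [mul_comm, Real.exp_mul, Real.exp_log (by linarith)]
            norm_cast
          rw [this]
          exact Real.exp_le_exp.2 (e1.trans hge1))
        have h4 := window (PP L q) hc1 hk2 hkc e4 hM h2 h3
        rw [Wn_add (PP L q) (Real.exp_le_exp.2 hge1)
          (Real.exp_le_exp.2 (show L ^ (1 / 2 : ℝ) * (k : ℝ) ^ J ≤
            L ^ (1 / 2 : ℝ) * (k : ℝ) ^ J * k by nlinarith))]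
        push_cast
        linarith
    set J := ⌊(2 / 5) * Real.log L / Real.log k⌋₊ with hJdef
    have hJ1 : (J : ℝ) ≤ (2 / 5) * Real.log L / Real.log k := Nat.floor_le (by positivity)
    have hJ2 : (2 / 5) * Real.log L / Real.log k < J + 1 := Nat.lt_floor_add_one _
    have hJ3 : (1 / 5) * Real.log L / Real.log k ≤ J := by
      have h5 : 1 ≤ (1 / 5) * Real.log L / Real.log k := by
        rw [le_div_iff₀ hlogk]; linarith
      have h6 : (2 / 5) * Real.log L / Real.log k = (1 / 5) * Real.log L / Real.log k +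
          (1 / 5) * Real.log L / Real.log k := by ring
      linarith
    have hkJ : (k : ℝ) ^ J ≤ L ^ (2 / 5 : ℝ) := by
      have h5 : (J : ℝ) * Real.log k ≤ (2 / 5) * Real.log L := by
        rwa [le_div_iff₀ hlogk] at hJ1
      rw [← Real.rpow_natCast, Real.rpow_def_of_pos (by linarith),
        Real.rpow_def_of_pos (by linarith)]
      exact Real.exp_le_exp.2 (by linarith)
    have hfin : L ^ (1 / 2 : ℝ) * (k : ℝ) ^ J ≤ L ^ (9 / 10 : ℝ) := by
      calc L ^ (1 / 2 : ℝ) * (k : ℝ) ^ J ≤ L ^ (1 / 2 : ℝ) * L ^ (2 / 5 : ℝ) :=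
            mul_le_mul_of_nonneg_left hkJ (by positivity)
        _ = L ^ (9 / 10 : ℝ) := by
            rw [← Real.rpow_add (by linarith)]
            norm_num
    have h7 := hind J hfin
    have hkJ1 : (1 : ℝ) ≤ (k : ℝ) ^ J := one_le_pow₀ (by linarith)
    have hLh : (0 : ℝ) < L ^ (1 / 2 : ℝ) := by positivity
    have h8 := Wn_mono (PP L q)
      (Real.exp_le_exp.2 (le_mul_of_one_le_right hLh.le hkJ1)) (Real.exp_le_exp.2 hfin)
    refine le_trans ?_ (h7.trans h8)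
    calc c1 / (10 * Real.log k) = (1 / 5) * Real.log L / Real.log k * (c1 / (2 * Real.log L)) := by
          field_simp
          ring
      _ ≤ _ := mul_le_mul_of_nonneg_right hJ3 (by positivity)
  · change _ ≤ Sg (PP L q) (Real.exp (L ^ (9 / 10 : ℝ)))
    have h1 := hlow L e4 q hq hqL (Real.exp (L ^ (9 / 10 : ℝ))) (Real.one_le_exp hL9.le) le_rfl
    rw [Real.log_exp] at h1
    refine le_trans ?_ h1
    rw [mul_div_assoc]
    exact mul_le_mul_of_nonneg_right (min_le_left _ _) (by positivity)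
  · have hB2 : 2 ≤ ⌊Real.exp (L ^ (9 / 10 : ℝ))⌋₊ := by
      refine Nat.le_floor ?_
      have h1 : (1 : ℝ) ≤ L ^ (9 / 10 : ℝ) := Real.one_le_rpow (by linarith) (by norm_num)
      have h2 := Real.add_one_le_exp (L ^ (9 / 10 : ℝ))
      push_cast
      linarith
    have h1 := (hC _ hB2).2
    have h2 : ∏ p ∈ PP L q, (1 + 1 / (p : ℝ)) ≤
        Pool.Agent.H381R2.HR.BB ⌊Real.exp (L ^ (9 / 10 : ℝ))⌋₊ := by
      calc ∏ p ∈ PP L q, (1 + 1 / (p : ℝ))
          ≤ ∏ p ∈ Pool.Agent.H381R2.HR.PP ⌊Real.exp (L ^ (9 / 10 : ℝ))⌋₊, (1 + 1 / (p : ℝ)) := by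
            refine prod_le_prod_of_subset_of_one_le ?_ (fun p _ => by positivity) (fun p _ _ => ?_)
            · intro p hp
              rw [PP, mem_filter, mem_range] at hp
              rw [Pool.Agent.H381R2.HR.PP, mem_filter, mem_Icc]
              exact ⟨⟨hp.2.1.one_lt.le, by omega⟩, hp.2.1⟩
            · have : 0 ≤ 1 / (p : ℝ) := by positivity
              linarith
        _ ≤ _ := by
            refine prod_le_prod (fun p _ => by positivity) (fun p hp => ?_)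
            exact one_add_le_inv p (mem_filter.1 hp).2
    refine h2.trans (h1.trans ?_)
    have h3 : Real.log (⌊Real.exp (L ^ (9 / 10 : ℝ))⌋₊ : ℝ) ≤ L ^ (9 / 10 : ℝ) := by
      calc Real.log (⌊Real.exp (L ^ (9 / 10 : ℝ))⌋₊ : ℝ) ≤ Real.log (Real.exp (L ^ (9 / 10 : ℝ))) :=
            Real.log_le_log (by exact_mod_cast (by omega)) (Nat.floor_le (Real.exp_pos _).le)
        _ = _ := Real.log_exp _
    calc C * Real.log (⌊Real.exp (L ^ (9 / 10 : ℝ))⌋₊ : ℝ) ≤ L ^ (1 / 10 : ℝ) * L ^ (9 / 10 : ℝ) :=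
          mul_le_mul e3 h3 (Real.log_natCast_nonneg _) (by positivity)
      _ = L := by
          rw [← Real.rpow_add (by linarith)]
          norm_num

end H474.AS
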