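import Pool.Agent.H474R2.AS.Defs
import Pool.Agent.H474R2.AS.PPdef

open Finset BigOperators

namespace H474.AS.Stubs

open H474.AS

variable {ι σ : Type} [Fintype ι] [DecidableEq ι] [Fintype σ] [DecidableEq σ]

/-! ### Task A -/
theorem equi_sq [Nonempty σ] (p : ι → ℕ) (a : σ → ℕ) (𝓑 : Finset ℕ) (X E : ℝ)
    (hp : ∀ i, 2 ≤ p i) (hE0 : 0 ≤ E) (hE : EquiDist p a 𝓑 X E) (hsep : Sep p a)
    (t : (ι → Option σ) → ℝ) :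
    |∑ N ∈ 𝓑, (∑ f : ι → Option σ, t f * hh p a f N) ^ 2
      - X * ∑ f : ι → Option σ, ∑ f' : ι → Option σ, t f * t f' * ∏ i, gram p i (f i) (f' i)|
      ≤ E * (∑ f : ι → Option σ, |t f| * ee p f) ^ 2 := by
  sorry

/-! ### Task B -/
theorem form_le (p : ι → ℕ) (hp : ∀ i, 2 ≤ p i) (hK : ∀ i, (Fintype.card σ : ℝ) ≤ p i)
    (t : (ι → Option σ) → ℝ) :
    ∑ f : ι → Option σ, ∑ f' : ι → Option σ, t f * t f' * ∏ i, gram p i (f i) (f' i)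
      ≤ ∑ f : ι → Option σ, t f ^ 2 / (dd p f : ℝ) := by
  sorry

theorem form_ge (p : ι → ℕ) (hp : ∀ i, 2 ≤ p i) (hK : ∀ i, (Fintype.card σ : ℝ) ≤ p i)
    (t : (ι → Option σ) → ℝ) :
    ∑ f : ι → Option σ, t f ^ 2 / (dd p f : ℝ) *
        ∏ i, (if (f i).isSome then (1 - (Fintype.card σ : ℝ) / p i) else 1)
      ≤ ∑ f : ι → Option σ, ∑ f' : ι → Option σ, t f * t f' * ∏ i, gram p i (f i) (f' i) := by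
  sorry

/-! ### Task C -/
/-- every assignment is uniquely `ins s f e` with `f` avoiding `s` and `e` inside the free set of `f` -/
theorem sum_fiber (s : σ) (F : (ι → Option σ) → ℝ) :
    ∑ g : ι → Option σ, F g
      = ∑ f ∈ (univ : Finset (ι → Option σ)).filter (fun f => ∀ i, f i ≠ some s),
          ∑ e ∈ (univ : Finset (Finset ι)).filter (fun e => ∀ i ∈ e, f i = none), F (ins s f e) := by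
  sorry

theorem TT_eq_QQ (p : ι → ℕ) (a : σ → ℕ) (ψ : ℕ → ℝ) (R : ℝ) (M : ℕ) (B : ℝ) (s : σ) (N : ℕ)
    (hp : ∀ i, 2 ≤ p i) (hψ : ψ 1 = 0) (hB : 1 ≤ B) (hN : ∀ i, ¬ p i ∣ N + a s) :
    TT p a ψ R M B s N = QQ p a ψ R M N := by
  sorry

theorem TT_norm_le (p : ι → ℕ) (ψ : ℕ → ℝ) (R : ℝ) (M : ℕ) (B : ℝ) (s : σ)
    (hp : ∀ i, 2 ≤ p i) (hB : 1 ≤ B) (S0 : ℝ) (hS0 : 0 < S0)
    (hS : ∀ f : ι → Option σ, (dd p f : ℝ) ≤ R → S0 ≤ SS p B f) :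
    ∑ g : ι → Option σ, tt p ψ R M B s g ^ 2 / (dd p g : ℝ)
      ≤ (1 / S0) * ∑ f : ι → Option σ, cc p ψ R M f ^ 2 * tau p ψ R M f ^ 2 / (dd p f : ℝ) := by
  sorry

/-! ### Task D -/
theorem moment_exp (p : ι → ℕ) (hp : ∀ i, 2 ≤ p i) (ψ y : ℕ → ℝ) (hψ : ∀ m, 0 ≤ ψ m)
    (hy : ∀ m, 0 ≤ y m) :
    ∑ f : ι → Option σ, wt p ψ f * ∏ s ∈ used f, (1 + y (ds p f s))
      ≤ Real.exp ((Fintype.card σ : ℝ) * ∑ e : Finset ι, ψ (me p e) ^ 2 / (me p e : ℝ) * y (me p e))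
        * Zall p ψ σ := by
  sorry

theorem moment_card (p : ι → ℕ) (hp : ∀ i, 2 ≤ p i) (ψ : ℕ → ℝ) (hψ : ∀ m, 0 ≤ ψ m) :
    ∑ f : ι → Option σ, wt p ψ f * ((used f).card : ℝ)
      ≤ (Fintype.card σ : ℝ) * (∑ e : Finset ι, ψ (me p e) ^ 2 / (me p e : ℝ)) * Zall p ψ σ := by
  sorry

/-! ### Task E -/
theorem one_le_Zall (p : ι → ℕ) (ψ : ℕ → ℝ) : 1 ≤ Zall p ψ σ := by
  sorry

theorem tau_small (p : ι → ℕ) (hp : ∀ i, 2 ≤ p i) (ψ : ℕ → ℝ) (R : ℝ) (M : ℕ) (B τ0 : ℝ) (hB : 1 ≤ B)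
    (hψ0 : ∀ m, 0 ≤ ψ m) (hψB : ∀ m : ℕ, B < (m : ℝ) → ψ m = 0)
    (hnorm : ∑ e : Finset ι, ψ (me p e) / (me p e : ℝ) = 1)
    (f : ι → Option σ) (hf : (dd p f : ℝ) ≤ R / B) (hM : (used f).card < M)
    (hτ : ∑ e ∈ (univ : Finset (Finset ι)).filter (fun e => ∃ i ∈ e, f i ≠ none),
      ψ (me p e) / (me p e : ℝ) ≤ τ0) :
    tau p ψ R M f ^ 2 ≤ τ0 ^ 2 := by
  sorry

theorem tau_mem (p : ι → ℕ) (hp : ∀ i, 2 ≤ p i) (ψ : ℕ → ℝ) (R : ℝ) (M : ℕ)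
    (hψ0 : ∀ m, 0 ≤ ψ m)
    (hnorm : ∑ e : Finset ι, ψ (me p e) / (me p e : ℝ) = 1) (f : ι → Option σ) :
    0 ≤ tau p ψ R M f ∧ tau p ψ R M f ≤ 1 := by
  sorry

/-- number of attached primes is at most `log d(f) / log z0` -/
theorem tau0_bound (p : ι → ℕ) (z0 : ℝ) (hz : 2 ≤ z0) (hp : ∀ i, z0 ≤ p i) (ψ : ℕ → ℝ)
    (hψ0 : ∀ m, 0 ≤ ψ m) (hψ1 : ∀ m, ψ m ≤ 1) (f : ι → Option σ) (R : ℝ) (hR : 1 ≤ R)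
    (hf : (dd p f : ℝ) ≤ R) :
    ∑ e ∈ (univ : Finset (Finset ι)).filter (fun e => ∃ i ∈ e, f i ≠ none),
      ψ (me p e) / (me p e : ℝ) ≤ 2 * Real.log R / z0 * ∏ i, (1 + 1 / (p i : ℝ)) := by
  sorry

theorem SS_lower (p : ι → ℕ) (z0 : ℝ) (hz : 2 ≤ z0) (hp : ∀ i, z0 ≤ p i) (B : ℝ) (hB : 1 ≤ B)
    (f : ι → Option σ) (R : ℝ) (hR : 1 ≤ R) (hf : (dd p f : ℝ) ≤ R) :
    (1 - 2 * Real.log R / z0) * ∑ e ∈ (univ : Finset (Finset ι)).filter (fun e => ((me p e : ℕ) : ℝ) ≤ B),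
      1 / (me p e : ℝ) ≤ SS p B f := by
  sorry

theorem ee_le_two (p : ι → ℕ) (z0 : ℝ) (hz : 2 ≤ z0) (hp : ∀ i, z0 ≤ p i)
    (f : ι → Option σ) (R : ℝ) (hR : 1 ≤ R) (hf : (dd p f : ℝ) ≤ R) (h : 4 * Real.log R ≤ z0) :
    ee p f ≤ 2 := by
  sorry

theorem low_ge_half (p : ι → ℕ) (z0 : ℝ) (hz : 2 ≤ z0) (hp : ∀ i, z0 ≤ p i)
    (f : ι → Option σ) (R : ℝ) (hR : 1 ≤ R) (hf : (dd p f : ℝ) ≤ R)
    (h : 4 * (Fintype.card σ : ℝ) * Real.log R ≤ z0) (hK : (Fintype.card σ : ℝ) ≤ z0) :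
    1 / 2 ≤ ∏ i, (if (f i).isSome then (1 - (Fintype.card σ : ℝ) / p i) else 1) := by
  sorry

theorem count_le (p : ι → ℕ) (hp : ∀ i, 2 ≤ p i) (R : ℝ) (hR : 1 ≤ R) (M : ℕ) :
    (((univ : Finset (ι → Option σ)).filter
      (fun f => (dd p f : ℝ) ≤ R ∧ (used f).card ≤ M)).card : ℝ)
      ≤ R * (((Fintype.card σ : ℝ) + 1) * ∏ i, (1 + 1 / (p i : ℝ))) ^ M := by
  sorry

/-! ### Task F (core assembly, helper474) -/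
theorem core [Nonempty σ] (p : ι → ℕ) (a : σ → ℕ) (𝓑 : Finset ℕ) (X E : ℝ) (ψ : ℕ → ℝ) (R B : ℝ) (M : ℕ)
    (S0 τ0 ρ1 ρ2 cnt : ℝ)
    (hp : ∀ i, 2 ≤ p i) (hK : ∀ i, (Fintype.card σ : ℝ) ≤ p i)
    (hX : 0 < X) (hE0 : 0 ≤ E) (hE : EquiDist p a 𝓑 X E) (hsep : Sep p a)
    (hψ0 : ∀ m, 0 ≤ ψ m) (hψ1 : ∀ m, ψ m ≤ 1) (hψone : ψ 1 = 0)
    (hB : 1 ≤ B) (hR : B ≤ R) (hψB : ∀ m : ℕ, B < (m : ℝ) → ψ m = 0)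
    (hnorm : ∑ e : Finset ι, ψ (me p e) / (me p e : ℝ) = 1)
    (hτ0 : 0 ≤ τ0)
    (hτ : ∀ f : ι → Option σ, (dd p f : ℝ) ≤ R →
      ∑ e ∈ (univ : Finset (Finset ι)).filter (fun e => ∃ i ∈ e, f i ≠ none),
        ψ (me p e) / (me p e : ℝ) ≤ τ0)
    (hS0 : 0 < S0) (hS : ∀ f : ι → Option σ, (dd p f : ℝ) ≤ R → S0 ≤ SS p B f)
    (hlow : ∀ f : ι → Option σ, (dd p f : ℝ) ≤ R →
      1 / 2 ≤ ∏ i, (if (f i).isSome then (1 - (Fintype.card σ : ℝ) / p i) else 1))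
    (hee : ∀ f : ι → Option σ, (dd p f : ℝ) ≤ R * B → ee p f ≤ 2)
    (hρ1 : ∑ f ∈ (univ : Finset (ι → Option σ)).filter (fun f => R / B < (dd p f : ℝ)), wt p ψ f
      ≤ ρ1 * Zall p ψ σ)
    (hρ2 : ∑ f ∈ (univ : Finset (ι → Option σ)).filter (fun f => M ≤ (used f).card), wt p ψ f
      ≤ ρ2 * Zall p ψ σ)
    (hcnt : (((univ : Finset (ι → Option σ)).filter
      (fun f => (dd p f : ℝ) ≤ R * B ∧ (used f).card ≤ M + 1)).card : ℝ) ≤ cnt)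
    (hρ10 : 0 ≤ ρ1) (hρ20 : 0 ≤ ρ2)
    (hmain : (Fintype.card σ : ℝ) / S0 * (τ0 ^ 2 + ρ1 + ρ2) ≤ 1 / 16) (hρ : ρ1 + ρ2 ≤ 1 / 2)
    (herr : 4 * ((Fintype.card σ : ℝ) + 1) * E * cnt ^ 2 ≤ X / 8) :
    ∃ N ∈ 𝓑, ∀ s : σ, ∃ i, p i ∣ N + a s := by
  sorry

/-! ### Number theory -/

/-- Task G (rough numbers) -/
theorem rough_sums : ∃ c0 : ℝ, 0 < c0 ∧ ∃ L0 : ℝ, ∀ L : ℝ, L0 ≤ L → ∀ q : ℕ, 0 < q →
    (q : ℝ) ≤ Real.exp (2 * L) →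
    (c0 ≤ ∑ e ∈ (PP L q).powerset.filter
        (fun e => Real.exp (L ^ (1 / 2 : ℝ)) < ((∏ p ∈ e, p : ℕ) : ℝ) ∧
          ((∏ p ∈ e, p : ℕ) : ℝ) ≤ Real.exp (L ^ (9 / 10 : ℝ))),
        1 / (((∏ p ∈ e, p : ℕ) : ℝ) * Real.log ((∏ p ∈ e, p : ℕ) : ℝ))) ∧
    (c0 * L ^ (9 / 10 : ℝ) / Real.log L ≤ ∑ e ∈ (PP L q).powerset.filter
        (fun e => ((∏ p ∈ e, p : ℕ) : ℝ) ≤ Real.exp (L ^ (9 / 10 : ℝ))),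
        1 / ((∏ p ∈ e, p : ℕ) : ℝ)) ∧
    ∏ p ∈ PP L q, (1 + 1 / (p : ℝ)) ≤ L := by
  sorry

/-- Task H: the anti-sieve theorem.  `L` plays the role of `log x`. -/
theorem antisieve : ∃ c : ℝ, 0 < c ∧ ∃ L0 : ℝ, ∀ L : ℝ, L0 ≤ L → ∀ q : ℕ, 0 < q →
    (q : ℝ) ≤ Real.exp (2 * L) → ∀ (𝒮 𝓑 : Finset ℕ) (X E : ℝ),
    (𝒮.card : ℝ) ≤ c * L →
    (∀ p ∈ PP L q, ∀ s ∈ 𝒮, ∀ s' ∈ 𝒮, s ≡ s' [MOD p] → s = s') →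
    Real.exp (L / 2) ≤ X → 0 ≤ E → E ≤ Real.exp (L / 20) →
    (∀ D : Finset ℕ, D ⊆ PP L q → ∀ v : ℕ → ℕ, (∀ p ∈ D, v p ∈ 𝒮) →
      |((𝓑.filter (fun N => ∀ p ∈ D, p ∣ N + v p)).card : ℝ) - X / ∏ p ∈ D, (p : ℝ)| ≤ E) →
    ∃ N ∈ 𝓑, ∀ s ∈ 𝒮, ∃ p ∈ PP L q, p ∣ N + s := by
  sorry

/-- Task I (Erdos-Rankin with survivors) -/
theorem erdos_rankin (c : ℝ) (hc : 0 < c) : ∃ c' : ℝ, 0 < c' ∧ ∃ L0 : ℝ, ∀ L : ℝ, L0 ≤ L →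
    ∃ H r : ℕ, c' * L * (Real.log L) ^ 2 * Real.log (Real.log (Real.log L)) /
        (Real.log (Real.log L)) ^ 2 ≤ (H : ℝ) ∧ (H : ℝ) ≤ L ^ 2 ∧
      (((Finset.Icc 1 H).filter (fun n => Nat.Coprime (r + n) (primorial ⌊L / 100⌋₊))).card : ℝ)
        ≤ c * L := by
  sorry

/-- Task J: large gaps -/
theorem large_gap : ∃ c : ℝ, 0 < c ∧ ∃ x0 : ℝ, ∀ x : ℝ, x0 ≤ x → ∃ n : ℕ,
    ((Nat.nth Nat.Prime (n + 1) : ℕ) : ℝ) ≤ x ∧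
    c * (Real.log x * (Real.log (Real.log x)) ^ 2 * Real.log (Real.log (Real.log (Real.log x))) /
        (Real.log (Real.log (Real.log x))) ^ 2)
      ≤ (Nat.nth Nat.Prime (n + 1) : ℝ) - (Nat.nth Nat.Prime n : ℝ) := by
  sorry

/-- Task K: least primes in arithmetic progressions -/
theorem least_prime : ∃ c : ℝ, 0 < c ∧ ∃ a0 : ℕ, ∀ a : ℕ, a0 ≤ a →
    ∃ b : ℕ, 1 ≤ b ∧ b < a ∧ Nat.Coprime a b ∧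
      ∀ p : ℕ, p.Prime → p ≡ b [MOD a] →
        c * (Nat.totient a : ℝ) * Real.log a * Real.log (Real.log a) ≤ (p : ℝ) := by
  sorry

end H474.AS.Stubs
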